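import Pool.Agent.U441.BS.Block

set_option autoImplicit false

/-!
Isolated simple zeros with an almost periodic weight: the estimate in a part of a dyadic block.
-/

namespace Pool.Agent.U441.BS

open Filter Topology Complex MeasureTheory H370 Pool.Agent.Y745.SW

/-- double counting -/
lemma dbl (n : ℕ) (I : Finset ℂ) (φ : ℝ → ℝ) {w : ℝ} (hw : 0 < w) (h0 : ∀ t, 0 ≤ φ t) :
    w * ∑ i ∈ Finset.range n, (((I.filter (fun s => (i : ℝ) * w < φ s.im)).card : ℕ) : ℝ) ≤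
      ∑ s ∈ I, φ s.im + w * I.card := by
  have e : ∑ i ∈ Finset.range n, (((I.filter (fun s => (i : ℝ) * w < φ s.im)).card : ℕ) : ℝ) =
      ∑ s ∈ I, ((((Finset.range n).filter (fun i : ℕ => (i : ℝ) * w < φ s.im)).card : ℕ) : ℝ) := by
    simp only [Finset.card_filter]
    push_cast
    exact Finset.sum_comm
  rw [e, Finset.mul_sum]
  calc ∑ s ∈ I, w * ((((Finset.range n).filter (fun i : ℕ => (i : ℝ) * w < φ s.im)).card : ℕ) : ℝ) ≤
      ∑ s ∈ I, (φ s.im + w) := Finset.sum_le_sum fun s _ => cnt_up n hw (h0 _)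
    _ = _ := by
        rw [Finset.sum_add_distrib, Finset.sum_const, nsmul_eq_mul]
        ring

open Classical in
theorem blockAP {φ : ℝ → ℝ} (hφ : AP φ) (h0 : ∀ t, 0 ≤ φ t) {ε : ℝ} (hε : 0 < ε) :
    ∃ δ : ℝ, 0 < δ ∧ δ ≤ 1 / 10 ∧ ∀ᶠ T : ℝ in atTop, ∃ U1 U2 : ℝ, T ≤ U1 ∧ U1 ≤ T + 1 ∧
    2 * T - 1 ≤ U2 ∧ U2 ≤ 2 * T ∧
    ∀ T1 T2 : ℝ, T + Real.log T ≤ T1 → T1 ≤ T2 → T2 ≤ 2 * T - Real.log T →
    ((2 - cMTinv) * (∫ t in T1..T2, φ t) - ε * T) * (Real.log T / (2 * Real.pi)) ≤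
      ∑ s ∈ (isoS U1 U2 (δ / Real.log T)).filter (fun s => T1 - 1 ≤ s.im ∧ s.im ≤ T2 + 1), φ s.im := by
  have hpi := Real.pi_pos
  have hcM1 : 1 < cMTinv := cMTinv_gt_one
  have hcM2 := cMTinv_lt
  obtain ⟨K, hK0', hK⟩ := hφ.bdd
  -- the levels
  set w : ℝ := ε / 8 with hw
  have hw0 : 0 < w := by positivity
  obtain ⟨n, hn⟩ := exists_nat_ge (K / w)
  have hn0 : (0 : ℝ) < n := lt_of_lt_of_le (by positivity) hn
  have hnK : ∀ t, φ t ≤ n * w := fun t => by
    rw [div_le_iff₀ hw0] at hn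
    exact (le_abs_self _).trans ((hK t).trans hn)
  set ε1 : ℝ := min (ε / (4 * (n * w))) 1 with hε1
  have hε10 : 0 < ε1 := by positivity
  have hε11 : n * w * ε1 ≤ ε / 4 := by
    have : ε1 ≤ ε / (4 * (n * w)) := min_le_left _ _
    calc n * w * ε1 ≤ n * w * (ε / (4 * (n * w))) := mul_le_mul_of_nonneg_left this (by positivity)
      _ = ε / 4 := by field_simp
  obtain ⟨δ, h, εs, τ, B, hδ, hδ1, hh, hεs, hεs2, hτ, hτε, hB, hblk⟩ := a_BLK ε1 hε10
    (min_le_right _ _)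
  refine ⟨δ, hδ, hδ1, ?_⟩
  obtain ⟨c, hc, C0, T0, hC0, hT0, hef⟩ := explicit_formula good_zeta
  obtain ⟨⟨K0, hK0⟩, hblk⟩ := hblk c C0 hc
  have hW := wgt_Dq hB hc hεs hεs2 hτ hτε hK0
  have hlev : ∀ᶠ T : ℝ in atTop, ∀ i ∈ Finset.range n, ∀ T1 T2 : ℝ, T1 ≤ T2 → T2 - T1 ≤ T →
      ∃ r : ℝ, ((i : ℝ) + 1 / 2) * w ≤ r ∧ r ≤ ((i : ℝ) + 1) * w ∧
      (∫ t in Lv φ r T1 T2, Dq Rf c B εs τ (4 * τ) T t) ≤
        volume.real (Lv φ r T1 T2) * Zq Rf c B εs τ (4 * τ) T + T := by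
    rw [Filter.eventually_all_finset]
    intro i _
    exact hW.level hφ (by nlinarith)
  -- uniform continuity
  obtain ⟨ρ, hρ, huc⟩ := Metric.uniformContinuous_iff.1 hφ.uc (w / 2) (by positivity)
  obtain ⟨C1, T1', hC1, hT1', hnn⟩ := nn_asymp good_zeta
  filter_upwards [hblk, hlev, Real.tendsto_log_atTop.eventually_ge_atTop (h + 10),
    Real.tendsto_log_atTop.eventually_ge_atTop (2 * h / ρ), eventually_ge_atTop T1',
    Real.tendsto_log_atTop.eventually_ge_atTop (2 * Real.pi * C1),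
    eventually_ge_atTop T0, eventually_ge_atTop 10] with T tblk tlev tL tρ tnn tC tT0 tT1
  obtain ⟨U1, U2, hU1, hU1', hU2, hU2', heft⟩ := hef T tT0
  refine ⟨U1, U2, hU1, hU1', hU2, hU2', fun T1 T2 h1 h12 h2 => ?_⟩
  have hefd : EFD c C0 T U1 U2 := ⟨hc, hU1, hU1', hU2, hU2', heft⟩
  set L := Real.log T with hL
  have hL0 : 0 < L := by linarith
  have hT0 : 0 < T := by linarith
  have h12T : T2 - T1 ≤ T := by linarith
  have hhL : h / L ≤ 1 := by rw [div_le_one hL0]; linarith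
  have hhρ : h / L < ρ := by
    rw [div_le_iff₀ hρ] at tρ
    rw [div_lt_iff₀ hL0]
    nlinarith
  choose! r hr1 hr2 hr3 using fun i hi => tlev i hi T1 T2 h12 h12T
  set I := isoS U1 U2 (δ / L) with hI
  set I' := I.filter (fun s => T1 - 1 ≤ s.im ∧ s.im ≤ T2 + 1) with hI'
  -- each level
  have hone : ∀ i ∈ Finset.range n,
      ((2 - cMTinv) * volume.real (Lv φ (r i) T1 T2) - ε1 * T) * (L / (2 * Real.pi)) ≤
      (((I'.filter (fun s => (i : ℝ) * w < φ s.im)).card : ℕ) : ℝ) := by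
    intro i hi
    have hb := tblk U1 U2 hefd (Lv φ (r i) T1 T2) (Lv_meas hφ.cont _ _ _)
      ((Lv_sub _ _ _ _).trans (Set.Icc_subset_Icc h1 h2)) (hr3 i hi)
    refine hb.trans ?_
    have hsub : (I.filter (fun s => ∃ t ∈ Lv φ (r i) T1 T2, |s.im - t| ≤ h / L)) ⊆
        I'.filter (fun s => (i : ℝ) * w < φ s.im) := by
      intro s hs
      rw [Finset.mem_filter] at hs
      obtain ⟨hsI, t, ⟨⟨ht1, ht2⟩, ht3⟩, hst⟩ := hs
      have hst' := abs_le.1 (hst.trans hhL)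
      rw [Finset.mem_filter, hI', Finset.mem_filter]
      refine ⟨⟨hsI, by linarith [hst'.1], by linarith [hst'.2]⟩, ?_⟩
      have h3 := huc (a := s.im) (b := t) (by rw [Real.dist_eq]; exact hst.trans_lt hhρ)
      rw [Real.dist_eq, abs_lt] at h3
      have h4 := hr1 i hi
      nlinarith [h3.1]
    exact_mod_cast Finset.card_le_card hsub
  -- sum over the levels
  have hsum := dbl n I' φ hw0 h0
  have hlay := layer hφ.cont n hw0 hnK (r := r) (fun i hi => hr2 i (Finset.mem_range.2 hi)) h12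
  have hcardI : (I'.card : ℝ) ≤ T * (L / Real.pi) := by
    have e1 : I'.card ≤ NN riemannZeta U1 U2 := by
      have e2 : I'.card ≤ (Zf riemannZeta U1 U2).card := by
        refine (Finset.card_le_card (Finset.filter_subset _ _)).trans ?_
        rw [hI]
        unfold isoS
        exact Finset.card_le_card (Finset.filter_subset _ _)
      have e9 : Zf riemannZeta U1 U2 ⊆ (zset_finite good_zeta U1 U2 (by linarith)).toFinset :=
        fun s hs => by
          rw [Set.Finite.mem_toFinset]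
          exact (mem_Zf good_zeta (by linarith)).1 hs
      exact e2.trans ((Finset.card_le_card e9).trans (H370.Loc.card_le_NN good_zeta U1 U2 (by linarith)))
    have e3 := (abs_le.1 (hnn T tnn U1 U2 hU1 hU1' hU2 hU2')).2
    have e4 : (I'.card : ℝ) ≤ NN riemannZeta U1 U2 := by exact_mod_cast e1
    have e5 : C1 * T ≤ T * L / (2 * Real.pi) := by
      rw [le_div_iff₀ (by positivity)]
      calc C1 * T * (2 * Real.pi) = (2 * Real.pi * C1) * T := by ring
        _ ≤ L * T := mul_le_mul_of_nonneg_right tC hT0.le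
        _ = T * L := mul_comm _ _
    have e6 : T * (L / Real.pi) = T * L / (2 * Real.pi) + T * L / (2 * Real.pi) := by
      field_simp; ring
    linarith
  have hmid : (w * ∑ i ∈ Finset.range n,
      ((2 - cMTinv) * volume.real (Lv φ (r i) T1 T2) - ε1 * T)) * (L / (2 * Real.pi)) ≤
      ∑ s ∈ I', φ s.im + w * I'.card := by
    refine le_trans ?_ hsum
    rw [mul_assoc, Finset.sum_mul]
    exact mul_le_mul_of_nonneg_left (Finset.sum_le_sum hone) hw0.le
  have e1 : w * ∑ i ∈ Finset.range n, ((2 - cMTinv) * volume.real (Lv φ (r i) T1 T2) - ε1 * T) =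
      (2 - cMTinv) * (w * ∑ i ∈ Finset.range n, volume.real (Lv φ (r i) T1 T2)) -
        n * w * ε1 * T := by
    rw [Finset.sum_sub_distrib, ← Finset.mul_sum, Finset.sum_const, Finset.card_range, nsmul_eq_mul]
    ring
  rw [e1] at hmid
  have e2 : (2 - cMTinv) * ((∫ t in T1..T2, φ t) - w * (T2 - T1)) ≤
      (2 - cMTinv) * (w * ∑ i ∈ Finset.range n, volume.real (Lv φ (r i) T1 T2)) :=
    mul_le_mul_of_nonneg_left hlay (by linarith)
  have e3 : (2 - cMTinv) * (w * (T2 - T1)) ≤ 1 * (w * T) := by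
    have : 2 - cMTinv ≤ 1 := by linarith
    have h5 : 0 ≤ w * (T2 - T1) := mul_nonneg hw0.le (by linarith)
    have h6 : w * (T2 - T1) ≤ w * T := mul_le_mul_of_nonneg_left h12T hw0.le
    nlinarith
  have e4 : n * w * ε1 * T ≤ ε / 4 * T := mul_le_mul_of_nonneg_right hε11 hT0.le
  have e5 : w * I'.card ≤ (ε / 4 * T) * (L / (2 * Real.pi)) := by
    calc w * I'.card ≤ w * (T * (L / Real.pi)) := mul_le_mul_of_nonneg_left hcardI hw0.le
      _ = _ := by rw [hw]; field_simp; ring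
  have e6 : ((2 - cMTinv) * (∫ t in T1..T2, φ t) - ε * T + ε / 4 * T) * (L / (2 * Real.pi)) ≤
      ((2 - cMTinv) * (w * ∑ i ∈ Finset.range n, volume.real (Lv φ (r i) T1 T2)) -
        n * w * ε1 * T) * (L / (2 * Real.pi)) := by
    refine mul_le_mul_of_nonneg_right ?_ (by positivity)
    have e7 : w * T = ε / 8 * T := by rw [hw]
    rw [e7] at e3
    have e8 : 0 ≤ ε * T := by positivity
    linarith
  rw [add_mul] at e6
  linarith

end Pool.Agent.U441.BS
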