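import Pool.Agent.U441.BS.Wgt

set_option autoImplicit false

/-!
Layer cake for almost periodic functions.
-/

namespace Pool.Agent.U441.BS

open Filter Topology Complex MeasureTheory

/-! ### counting levels -/

lemma cnt_up (n : ℕ) {w x : ℝ} (hw : 0 < w) (hx : 0 ≤ x) :
    w * (((Finset.range n).filter (fun i : ℕ => (i : ℝ) * w < x)).card : ℝ) ≤ x + w := by
  have h1 : (Finset.range n).filter (fun i : ℕ => (i : ℝ) * w < x) ⊆ Finset.range ⌈x / w⌉₊ := by
    intro i hi
    rw [Finset.mem_filter] at hi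
    rw [Finset.mem_range, Nat.lt_ceil, lt_div_iff₀ hw]
    exact hi.2
  have h2 := Finset.card_le_card h1
  rw [Finset.card_range] at h2
  have h3 : (⌈x / w⌉₊ : ℝ) < x / w + 1 := Nat.ceil_lt_add_one (by positivity)
  have h4 : (((Finset.range n).filter (fun i : ℕ => (i : ℝ) * w < x)).card : ℝ) ≤ ⌈x / w⌉₊ := by
    exact_mod_cast h2
  calc w * (((Finset.range n).filter (fun i : ℕ => (i : ℝ) * w < x)).card : ℝ) ≤ w * (x / w + 1) := by
        gcongr
        linarith
    _ = x + w := by field_simp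

lemma cnt_lo (n : ℕ) {w x : ℝ} (hw : 0 < w) (hx : x ≤ n * w) :
    x - w ≤ w * (((Finset.range n).filter (fun i : ℕ => ((i : ℝ) + 1) * w < x)).card : ℝ) := by
  have h1 : Finset.range (⌈x / w⌉₊ - 1) ⊆
      (Finset.range n).filter (fun i : ℕ => ((i : ℝ) + 1) * w < x) := by
    intro i hi
    rw [Finset.mem_range] at hi
    have h2 : i + 1 < ⌈x / w⌉₊ := by omega
    have h3 := Nat.lt_ceil.1 h2
    rw [lt_div_iff₀ hw] at h3
    push_cast at h3
    rw [Finset.mem_filter, Finset.mem_range]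
    refine ⟨?_, h3⟩
    have h4 : ((i : ℝ) + 1) * w < n * w := h3.trans_le hx
    have h5 : (i : ℝ) + 1 < n := lt_of_mul_lt_mul_right h4 hw.le
    have h6 : i + 1 < n := by exact_mod_cast h5
    omega
  have h2 := Finset.card_le_card h1
  rw [Finset.card_range] at h2
  have h3 : x / w ≤ ⌈x / w⌉₊ := Nat.le_ceil _
  have h4 : (⌈x / w⌉₊ : ℝ) - 1 ≤ ((⌈x / w⌉₊ - 1 : ℕ) : ℝ) := by
    have : ⌈x / w⌉₊ ≤ (⌈x / w⌉₊ - 1) + 1 := by omega
    have h5 : (⌈x / w⌉₊ : ℝ) ≤ ((⌈x / w⌉₊ - 1 : ℕ) : ℝ) + 1 := by exact_mod_cast this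
    linarith
  have h5 : ((⌈x / w⌉₊ - 1 : ℕ) : ℝ) ≤
      (((Finset.range n).filter (fun i : ℕ => ((i : ℝ) + 1) * w < x)).card : ℝ) := by
    exact_mod_cast h2
  calc x - w = w * (x / w - 1) := by field_simp
    _ ≤ _ := by
        gcongr
        linarith

/-- the layer cake, integrated -/
lemma layer {φ : ℝ → ℝ} (hφ : Continuous φ) (n : ℕ) {w : ℝ} (hw : 0 < w)
    (hn : ∀ t, φ t ≤ n * w) {r : ℕ → ℝ} (hr : ∀ i, i < n → r i ≤ ((i : ℝ) + 1) * w) {T1 T2 : ℝ}
    (h12 : T1 ≤ T2) :
    (∫ t in T1..T2, φ t) - w * (T2 - T1) ≤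
      w * ∑ i ∈ Finset.range n, volume.real (Lv φ (r i) T1 T2) := by
  classical
  have e1 : ∀ i, volume.real (Lv φ (r i) T1 T2) =
      ∫ t in Set.Icc T1 T2, (Lv φ (r i) T1 T2).indicator (fun _ => (1 : ℝ)) t := by
    intro i
    rw [setIntegral_indicator (Lv_meas hφ _ _ _), Set.inter_eq_right.2 (Lv_sub _ _ _ _)]
    simp
  have hi : ∀ i, IntegrableOn (fun t => (Lv φ (r i) T1 T2).indicator (fun _ => (1 : ℝ)) t)
      (Set.Icc T1 T2) := fun i => (integrableOn_const (by simp)).indicator (Lv_meas hφ _ _ _)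
  have e2 : w * ∑ i ∈ Finset.range n, volume.real (Lv φ (r i) T1 T2) =
      ∫ t in Set.Icc T1 T2, w * ∑ i ∈ Finset.range n,
        (Lv φ (r i) T1 T2).indicator (fun _ => (1 : ℝ)) t := by
    rw [integral_const_mul, integral_finsetSum _ fun i _ => hi i]
    congr 1
    exact Finset.sum_congr rfl fun i _ => e1 i
  have e3 : (∫ t in T1..T2, φ t) - w * (T2 - T1) = ∫ t in Set.Icc T1 T2, (φ t - w) := by
    rw [integral_Icc_eq_integral_Ioc, ← intervalIntegral.integral_of_le h12,
      intervalIntegral.integral_sub (hφ.intervalIntegrable _ _) intervalIntegrable_const,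
      intervalIntegral.integral_const, smul_eq_mul]
    ring
  rw [e2, e3]
  refine setIntegral_mono_on ((hφ.sub continuous_const).continuousOn.integrableOn_compact
    isCompact_Icc) ?_ measurableSet_Icc fun t ht => ?_
  · exact (integrable_finsetSum _ fun i _ => hi i).const_mul _
  · refine (cnt_lo n hw (hn t)).trans ?_
    apply mul_le_mul_of_nonneg_left _ hw.le
    rw [Finset.card_filter]
    push_cast
    refine Finset.sum_le_sum fun i hi' => ?_
    rw [Finset.mem_range] at hi'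
    split_ifs with h
    · rw [Set.indicator_of_mem]
      exact ⟨ht, (hr i hi').trans_lt h⟩
    · exact Set.indicator_nonneg (fun _ _ => zero_le_one) _


lemma AP.uc {φ : ℝ → ℝ} (h : AP φ) : UniformContinuous φ := by
  rw [Metric.uniformContinuous_iff]
  intro ε hε
  obtain ⟨S, c, hS⟩ := h (ε / 4) (by positivity)
  have hlip : ∀ x y : ℝ, |tp S c x - tp S c y| ≤ (∑ τ ∈ S, ‖c τ‖ * |τ|) * |x - y| := by
    intro x y
    unfold tp
    rw [← Complex.sub_re, ← Finset.sum_sub_distrib]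
    refine (Complex.abs_re_le_norm _).trans ((norm_sum_le _ _).trans ?_)
    rw [Finset.sum_mul]
    refine Finset.sum_le_sum fun τ _ => ?_
    rw [← mul_sub, norm_mul, mul_assoc ‖c τ‖]
    refine mul_le_mul_of_nonneg_left ?_ (norm_nonneg _)
    have e : cexp (I * τ * x) - cexp (I * τ * y) =
        cexp (I * τ * y) * (cexp (I * ((τ * (x - y) : ℝ) : ℂ)) - 1) := by
      rw [mul_sub, ← Complex.exp_add, mul_one]
      congr 2
      push_cast
      ring
    rw [e, norm_mul, exp_norm, one_mul]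
    refine (Real.norm_exp_I_mul_ofReal_sub_one_le (x := τ * (x - y))).trans ?_
    rw [Real.norm_eq_abs, abs_mul]
  set A := ∑ τ ∈ S, ‖c τ‖ * |τ| with hA
  have hA0 : 0 ≤ A := Finset.sum_nonneg fun _ _ => by positivity
  refine ⟨ε / (4 * (A + 1)), by positivity, fun x y hxy => ?_⟩
  rw [Real.dist_eq] at hxy ⊢
  have h1 := hS x
  have h2 := hS y
  have h3 := hlip x y
  have h4 : A * |x - y| ≤ ε / 4 := by
    calc A * |x - y| ≤ A * (ε / (4 * (A + 1))) := by gcongr
      _ = A / (A + 1) * (ε / 4) := by field_simp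
      _ ≤ 1 * (ε / 4) := by
          have : A / (A + 1) ≤ 1 := by rw [div_le_one (by linarith)]; linarith
          gcongr
      _ = _ := one_mul _
  calc |φ x - φ y| = |(φ x - tp S c x) + (tp S c x - tp S c y) - (φ y - tp S c y)| := by
        congr 1; ring
    _ ≤ |φ x - tp S c x| + |tp S c x - tp S c y| + |φ y - tp S c y| :=
        (abs_sub _ _).trans (add_le_add_left (abs_add_le _ _) _)
    _ < ε := by linarith


end Pool.Agent.U441.BS
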