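import Pool.Agent.U441.BS.TwOne
import Pool.Agent.U441.BS.Lay
import Pool.Agent.Y745.SW.Blk6
import Pool.Agent.Y248.SW.KER
import Pool.Agent.Y833.SW.Di
import Pool.Agent.Y655.SW.Ers
import Pool.Agent.Y627.SW.ER1
import Pool.Agent.Y655.SW.Trk
import Pool.Agent.Y627.SW.MN
import Pool.Agent.Y240.SW.DF
import Pool.Agent.Y228.SW.EF
import Pool.Agent.Y274.SW.SM
import Pool.Agent.H370R2.DirGood
import Pool.Agent.H370R2.RightZeros
import Pool.Agent.H965R2.SI.CountShort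

set_option autoImplicit false

/-!
Isolated simple zeros with an almost periodic weight: dyadic blocks.
-/

namespace Pool.Agent.U441.BS

open Filter Topology Complex MeasureTheory H370 Pool.Agent.Y745.SW

theorem a_BLK : P_BLK := blk good_zeta Pool.Agent.Y248.SW.t_KER Pool.Agent.Y833.SW.t_DI
  (Pool.Agent.Y655.SW.t_ERS Pool.Agent.Y627.SW.t_ER1)
  Pool.Agent.Y655.SW.t_TRK Pool.Agent.Y627.SW.t_MN Pool.Agent.Y240.SW.t_DF Pool.Agent.Y228.SW.t_EF
  (Pool.Agent.Y274.SW.t_SM Pool.Agent.Y840.SW.t_MVB Pool.Agent.Y228.SW.t_EF)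

/-! ### the weight `Dq` -/

lemma wgt_Dq {c : ℕ → ℂ} {B : ℝ → ℝ} (hB : Continuous B) {ε τ : ℝ}
    (hc : ∀ n, ‖c n‖ ≤ ArithmeticFunction.vonMangoldt n) (hε : 0 < ε) (hε2 : ε < 1 / 2) (hτ : 0 < τ)
    (hτε : τ ≤ ε / 4) {K0 : ℝ} (hK0 : ∀ᶠ T : ℝ in atTop, Zq Rf c B ε τ (4 * τ) T ≤ K0) :
    Wgt (fun T t => Dq Rf c B ε τ (4 * τ) T t) (fun T => Zq Rf c B ε τ (4 * τ) T) K0 where
  ne μ hμ κ hκ := Dq_ne Rf_cont hB hc hε hε2 hτ hτε hμ hκ
  zero κ hκ := Dq_zero Rf_cont hB hc hε hε2 hτ hτε hκ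
  cont := by
    filter_upwards [Real.tendsto_log_atTop.eventually_ge_atTop 1] with T hT
    exact Dq_cont hB hε hε2 hτ hτε le_rfl (by linarith) Rf_cont (by linarith)
  nonneg := Eventually.of_forall fun T t =>
    Dq_nonneg hε hε2 hτ hτε le_rfl (by linarith) (fun x _ => Rf_nonneg x) t
  Zb := by
    filter_upwards [hK0] with T hT
    refine ⟨?_, hT⟩
    unfold Zq
    refine mul_nonneg (by norm_num) (intervalIntegral.integral_nonneg (by linarith) fun y hy => ?_)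
    exact mul_nonneg (Rf_nonneg y) (Finset.sum_nonneg fun n _ => by positivity)

end Pool.Agent.U441.BS
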