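import Mathlib

set_option autoImplicit false

/-!
Uniform limits of trigonometric polynomials: composition with a continuous function.
-/

namespace Pool.Agent.U441.BS

open Filter Topology Complex

/-- the real part of a trigonometric polynomial -/
noncomputable def tp (S : Finset ℝ) (c : ℝ → ℂ) (t : ℝ) : ℝ :=
  (∑ τ ∈ S, c τ * cexp (I * τ * t)).re

/-- uniform limits of real parts of trigonometric polynomials -/
def AP (φ : ℝ → ℝ) : Prop := ∀ ε : ℝ, 0 < ε → ∃ (S : Finset ℝ) (c : ℝ → ℂ),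
  ∀ t : ℝ, |φ t - tp S c t| ≤ ε

lemma tp_cont (S : Finset ℝ) (c : ℝ → ℂ) : Continuous (tp S c) := by
  unfold tp
  exact Complex.continuous_re.comp (by fun_prop)

lemma tp_bound (S : Finset ℝ) (c : ℝ → ℂ) (t : ℝ) : |tp S c t| ≤ ∑ τ ∈ S, ‖c τ‖ := by
  unfold tp
  refine (Complex.abs_re_le_norm _).trans ((norm_sum_le _ _).trans ?_)
  refine Finset.sum_le_sum fun τ _ => ?_
  rw [norm_mul]
  have : I * (τ : ℂ) * t = ((τ * t : ℝ) : ℂ) * I := by push_cast; ring
  rw [this, Complex.norm_exp_ofReal_mul_I, mul_one]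

lemma AP.cont {φ : ℝ → ℝ} (h : AP φ) : Continuous φ := by
  refine continuous_of_uniform_approx_of_continuous fun u hu => ?_
  obtain ⟨ε, hε, hεu⟩ := Metric.mem_uniformity_dist.1 hu
  obtain ⟨S, c, hS⟩ := h (ε / 2) (by positivity)
  refine ⟨tp S c, tp_cont S c, fun y => hεu ?_⟩
  rw [Real.dist_eq]
  have := hS y
  linarith

lemma AP.bdd {φ : ℝ → ℝ} (h : AP φ) : ∃ K : ℝ, 0 < K ∧ ∀ t, |φ t| ≤ K := by
  obtain ⟨S, c, hS⟩ := h 1 one_pos
  have h0 : 0 ≤ ∑ τ ∈ S, ‖c τ‖ := Finset.sum_nonneg fun _ _ => norm_nonneg _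
  refine ⟨∑ τ ∈ S, ‖c τ‖ + 1, by linarith, fun t => ?_⟩
  have h1 := hS t
  have h2 := tp_bound S c t
  have h3 : |φ t| ≤ |φ t - tp S c t| + |tp S c t| := by
    have := abs_add_le (φ t - tp S c t) (tp S c t)
    rwa [sub_add_cancel] at this
  linarith

/-- the characters -/
noncomputable def chi : Multiplicative ℝ →* (ℝ → ℂ) where
  toFun τ := fun t => cexp (I * (Multiplicative.toAdd τ : ℝ) * t)
  map_one' := by funext t; simp
  map_mul' := by
    intro a b
    funext t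
    simp only [toAdd_mul, Pi.mul_apply]
    rw [← Complex.exp_add]
    congr 1
    push_cast
    ring

/-- evaluation of the elements of the group algebra -/
noncomputable def ev : AddMonoidAlgebra ℂ ℝ →ₐ[ℂ] (ℝ → ℂ) :=
  AddMonoidAlgebra.lift ℂ (ℝ → ℂ) ℝ chi

lemma ev_apply (p : AddMonoidAlgebra ℂ ℝ) (t : ℝ) :
    ev p t = ∑ τ ∈ p.coeff.support, p.coeff τ * cexp (I * τ * t) := by
  unfold ev
  rw [AddMonoidAlgebra.lift_apply, Finsupp.sum, Finset.sum_apply]
  rfl

lemma ev_single (τ : ℝ) (z : ℂ) (t : ℝ) :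
    ev (AddMonoidAlgebra.single τ z) t = z * cexp (I * τ * t) := by
  unfold ev
  rw [AddMonoidAlgebra.lift_single]
  rfl

/-- real trigonometric polynomials -/
def TP (g : ℝ → ℝ) : Prop := ∃ p : AddMonoidAlgebra ℂ ℝ, ∀ t, ((g t : ℝ) : ℂ) = ev p t

lemma TP_tp (S : Finset ℝ) (c : ℝ → ℂ) : TP (tp S c) := by
  refine ⟨∑ τ ∈ S, (AddMonoidAlgebra.single τ (c τ / 2) +
    AddMonoidAlgebra.single (-τ) ((starRingEnd ℂ) (c τ) / 2)), fun t => ?_⟩
  rw [map_sum, Finset.sum_apply]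
  simp only [map_add, Pi.add_apply, ev_single]
  unfold tp
  rw [Complex.re_eq_add_conj, map_sum, ← Finset.sum_add_distrib, Finset.sum_div]
  refine Finset.sum_congr rfl fun τ _ => ?_
  rw [map_mul, ← Complex.exp_conj]
  simp only [map_mul, Complex.conj_I, Complex.conj_ofReal]
  push_cast
  have : -I * (τ : ℂ) * t = I * -(τ : ℂ) * t := by ring
  rw [this]
  ring

lemma TP.tp {g : ℝ → ℝ} (h : TP g) : ∃ (S : Finset ℝ) (c : ℝ → ℂ), ∀ t, g t = BS.tp S c t := by
  obtain ⟨p, hp⟩ := h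
  refine ⟨p.coeff.support, fun τ => p.coeff τ, fun t => ?_⟩
  unfold BS.tp
  rw [← ev_apply, ← hp]
  simp

lemma TP.poly {g : ℝ → ℝ} (h : TP g) (P : Polynomial ℝ) : TP (fun t => P.eval (g t)) := by
  obtain ⟨p, hp⟩ := h
  refine ⟨Polynomial.aeval p (P.map (algebraMap ℝ ℂ)), fun t => ?_⟩
  rw [← Polynomial.aeval_algHom_apply]
  have h1 : (Polynomial.aeval (ev p)) (P.map (algebraMap ℝ ℂ)) t =
      (P.map (algebraMap ℝ ℂ)).eval (ev p t) := by
    have h2 := Polynomial.aeval_algHom_apply (Pi.evalAlgHom ℂ (fun _ : ℝ => ℂ) t) (ev p)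
      (P.map (algebraMap ℝ ℂ))
    simp only [Pi.evalAlgHom_apply] at h2
    rw [← h2, Polynomial.coe_aeval_eq_eval]
  rw [h1, ← hp, Polynomial.eval_map_algebraMap]
  exact (Polynomial.aeval_algebraMap_apply_eq_algebraMap_eval (g t) P).symm

/-- **composition with a continuous function** -/
theorem AP.comp {φ : ℝ → ℝ} (h : AP φ) {f : ℝ → ℝ} (hf : Continuous f) : AP (fun t => f (φ t)) := by
  obtain ⟨K, hK, hb⟩ := h.bdd
  intro ε hε
  obtain ⟨P, hP⟩ := exists_polynomial_near_of_continuousOn (-(K + 1)) (K + 1) f hf.continuousOn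
    (ε / 2) (by positivity)
  have huc := (isCompact_Icc (a := -(K + 1)) (b := K + 1)).uniformContinuousOn_of_continuous
    (f := fun x => P.eval x) P.continuous.continuousOn
  rw [Metric.uniformContinuousOn_iff] at huc
  obtain ⟨δ, hδ, huc⟩ := huc (ε / 2) (by positivity)
  obtain ⟨S, c, hS⟩ := h (min 1 (δ / 2)) (by positivity)
  obtain ⟨S', c', hS'⟩ := ((TP_tp S c).poly P).tp
  refine ⟨S', c', fun t => ?_⟩
  rw [← hS' t]
  have h1 := hS t
  have h2 := hb t
  rw [abs_le] at h2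
  have h3 := abs_le.1 (h1.trans (min_le_left _ _))
  have m1 : φ t ∈ Set.Icc (-(K + 1)) (K + 1) := ⟨by linarith, by linarith⟩
  have m2 : BS.tp S c t ∈ Set.Icc (-(K + 1)) (K + 1) := ⟨by linarith, by linarith⟩
  have h4 := hP _ m1
  have h5 := huc _ m1 _ m2 (by
    rw [Real.dist_eq]
    have := h1.trans (min_le_right _ _)
    linarith)
  rw [Real.dist_eq] at h5
  calc |f (φ t) - P.eval (BS.tp S c t)| =
      |(P.eval (φ t) - P.eval (BS.tp S c t)) - (P.eval (φ t) - f (φ t))| := by congr 1; ring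
    _ ≤ |P.eval (φ t) - P.eval (BS.tp S c t)| + |P.eval (φ t) - f (φ t)| := abs_sub _ _
    _ ≤ ε := by linarith

end Pool.Agent.U441.BS
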