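import Pool.Agent.TH803.TW.Torus

set_option autoImplicit false

/-!
The mean value of a function that satisfies `APm`.
-/

namespace Pool.Agent.U441.BS

open Filter Topology Complex MeasureTheory TH803TW

lemma mean_of_APm {φ : ℝ → ℝ} {M : ℝ} (h : APm φ M) :
    Tendsto (fun X : ℝ => (∫ t in (0 : ℝ)..X, φ t) / X) atTop (𝓝 M) := by
  have hu : APu φ := fun ε hε => by
    obtain ⟨S, c, -, h, -⟩ := h ε hε
    exact ⟨S, c, h⟩
  have hc := hu.cont
  rw [Metric.tendsto_nhds]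
  intro ε hε
  obtain ⟨S, c, h0, h1, h2⟩ := h (ε / 4) (by positivity)
  have h3 := Metric.tendsto_nhds.1 (tp_mean c h0) (ε / 4) (by positivity)
  filter_upwards [h3, eventually_gt_atTop 0] with X hX hX0
  rw [Real.dist_eq] at hX ⊢
  have h4 : |(∫ t in (0 : ℝ)..X, φ t) / X - (∫ t in (0 : ℝ)..X, tp S c t) / X| ≤ ε / 4 := by
    rw [← sub_div, abs_div, abs_of_pos hX0, div_le_iff₀ hX0,
      ← intervalIntegral.integral_sub (hc.intervalIntegrable _ _)
        ((tp_cont S c).intervalIntegrable _ _)]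
    have h5 := intervalIntegral.norm_integral_le_of_norm_le_const (a := 0) (b := X)
      (f := fun t => φ t - tp S c t) (C := ε / 4) (fun t _ => by
        rw [Real.norm_eq_abs]; exact h1 t)
    rwa [sub_zero, abs_of_pos hX0, Real.norm_eq_abs] at h5
  have h6 : (∫ t in (0 : ℝ)..X, φ t) / X - M =
      ((∫ t in (0 : ℝ)..X, φ t) / X - (∫ t in (0 : ℝ)..X, tp S c t) / X) +
      ((∫ t in (0 : ℝ)..X, tp S c t) / X - (c 0).re) + ((c 0).re - M) := by ring
  rw [h6]
  have h7 := abs_add_le (((∫ t in (0 : ℝ)..X, φ t) / X - (∫ t in (0 : ℝ)..X, tp S c t) / X) +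
      ((∫ t in (0 : ℝ)..X, tp S c t) / X - (c 0).re)) ((c 0).re - M)
  have h8 := abs_add_le ((∫ t in (0 : ℝ)..X, φ t) / X - (∫ t in (0 : ℝ)..X, tp S c t) / X)
      ((∫ t in (0 : ℝ)..X, tp S c t) / X - (c 0).re)
  linarith

end Pool.Agent.U441.BS
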