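import Pool.Agent.U441.BS.Blk
import Pool.Agent.U441.BS.Mean

set_option autoImplicit false

/-!
Isolated simple zeros with an almost periodic weight: intervals `(T, T + H]`, `η T ≤ H ≤ T`.
-/

namespace Pool.Agent.U441.BS

open Filter Topology Complex MeasureTheory H370 Pool.Agent.Y745.SW

/-- the zeros that are counted -/
def Iso (δ : ℝ) (s : ℂ) : Prop := s.re = 1 / 2 ∧ mult riemannZeta s = 1 ∧
  ∀ s' : ℂ, riemannZeta s' = 0 → 0 < s'.re → s'.re < 1 → s' ≠ s → δ / Real.log s.im ≤ ‖s' - s‖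

/-- the mean value in long intervals -/
lemma mean_long {φ : ℝ → ℝ} (hφ : Continuous φ) {M : ℝ}
    (hM : Tendsto (fun X : ℝ => (∫ t in (0 : ℝ)..X, φ t) / X) atTop (𝓝 M)) {κ : ℝ} (hκ : 0 < κ) :
    ∀ᶠ T : ℝ in atTop, ∀ T1 T2 : ℝ, T ≤ T1 → T ≤ T2 → T1 ≤ 2 * T → T2 ≤ 2 * T →
    M * (T2 - T1) - κ * T ≤ ∫ t in T1..T2, φ t := by
  have h1 := Metric.tendsto_nhds.1 hM (κ / 4) (by positivity)
  obtain ⟨X0, hX0⟩ := Filter.eventually_atTop.1 h1
  filter_upwards [eventually_ge_atTop X0, eventually_gt_atTop 0] with T hT hT0 T1 T2 h1 h2 h3 h4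
  have key : ∀ X : ℝ, T ≤ X → X ≤ 2 * T → |(∫ t in (0 : ℝ)..X, φ t) - M * X| ≤ κ / 2 * T := by
    intro X hX hX2
    have hX0' : 0 < X := by linarith
    have h5 := hX0 X (by linarith)
    rw [Real.dist_eq] at h5
    have e : (∫ t in (0 : ℝ)..X, φ t) - M * X = ((∫ t in (0 : ℝ)..X, φ t) / X - M) * X := by
      field_simp
    rw [e, abs_mul, abs_of_pos hX0']
    calc _ ≤ κ / 4 * X := mul_le_mul_of_nonneg_right h5.le hX0'.le
      _ ≤ κ / 4 * (2 * T) := mul_le_mul_of_nonneg_left hX2 (by positivity)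
      _ = _ := by ring
  have e1 : ∫ t in T1..T2, φ t = (∫ t in (0 : ℝ)..T2, φ t) - ∫ t in (0 : ℝ)..T1, φ t := by
    rw [intervalIntegral.integral_interval_sub_left (hφ.intervalIntegrable _ _)
      (hφ.intervalIntegrable _ _)]
  have k1 := abs_le.1 (key T1 h1 h3)
  have k2 := abs_le.1 (key T2 h2 h4)
  rw [e1]
  linarith [k1.2, k2.1]

theorem shortAP {φ : ℝ → ℝ} (hφ : AP φ) (h0 : ∀ t, 0 ≤ φ t) {M : ℝ}
    (hM : Tendsto (fun X : ℝ => (∫ t in (0 : ℝ)..X, φ t) / X) atTop (𝓝 M)) {η ε : ℝ}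
    (hη : 0 < η) (hε : 0 < ε) :
    ∃ δ : ℝ, 0 < δ ∧ ∃ T0 : ℝ, 10 ≤ T0 ∧ ∀ T : ℝ, T0 ≤ T → ∀ H : ℝ, η * T ≤ H → H ≤ T →
      ∃ J : Finset ℂ, (∀ s ∈ J, s ∈ zset riemannZeta T (T + H) ∧ Iso δ s) ∧
      ((2 - cMTinv) * M - ε) * (NN riemannZeta T (T + H) : ℝ) ≤ ∑ s ∈ J, φ s.im := by
  classical
  have hpi := Real.pi_pos
  have hcM1 : 1 < cMTinv := cMTinv_gt_one
  have hcM2 := cMTinv_lt
  have hM0 : 0 ≤ M := by
    refine ge_of_tendsto hM ?_
    filter_upwards [eventually_gt_atTop (0 : ℝ)] with X hX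
    exact div_nonneg (intervalIntegral.integral_nonneg hX.le fun t _ => h0 t) hX.le
  obtain ⟨δ, hδ, hδ1, hev⟩ := blockAP hφ h0 (show 0 < ε * η / 8 by positivity)
  refine ⟨δ, hδ, ?_⟩
  obtain ⟨C, hC, hnn⟩ := H965SI.nn_asymp_short good_zeta
  have hmean := mean_long hφ.cont hM (show 0 < ε * η / 8 by positivity)
  -- eventual inequalities
  have hl1 : ∀ᶠ T : ℝ in atTop, Real.log T ≤ (min (1 / 4) (ε / (16 * (M + 1))) * η) * T := by
    have := (Real.isLittleO_log_id_atTop).bound (show 0 < min (1 / 4) (ε / (16 * (M + 1))) * η by positivity)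
    filter_upwards [this, eventually_ge_atTop 1] with T hT hT1
    rw [Real.norm_eq_abs, Real.norm_eq_abs, abs_of_nonneg (Real.log_nonneg hT1), id,
      abs_of_nonneg (by linarith)] at hT
    exact hT
  have hl2 : ∀ᶠ T : ℝ in atTop, (Real.log T) ^ 2 ≤ η * T := by
    have := (Real.isLittleO_pow_log_id_atTop (n := 2)).bound hη
    filter_upwards [this, eventually_ge_atTop 1] with T hT hT1
    rw [Real.norm_eq_abs, Real.norm_eq_abs, abs_of_nonneg (by positivity), id,
      abs_of_nonneg (by linarith)] at hT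
    exact hT
  have hall : ∀ᶠ T : ℝ in atTop, ∀ H : ℝ, η * T ≤ H → H ≤ T →
      ∃ J : Finset ℂ, (∀ s ∈ J, s ∈ zset riemannZeta T (T + H) ∧ Iso δ s) ∧
      ((2 - cMTinv) * M - ε) * (NN riemannZeta T (T + H) : ℝ) ≤ ∑ s ∈ J, φ s.im := by
    filter_upwards [hev, hmean, hl1, hl2, eventually_ge_atTop 10,
      Real.tendsto_log_atTop.eventually_ge_atTop 3,
      Real.tendsto_log_atTop.eventually_ge_atTop (2 * Real.pi * (2 * C * (M + 1)) * (4 / ε)),
      eventually_ge_atTop (3 / η)]
      with T tev tmean tl1 tl2 tT tL tC tη H hH1 hH2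
    obtain ⟨U1, U2, hU1, hU1', hU2, hU2', hcount⟩ := tev
    have hT0 : 0 < T := by linarith
    set L := Real.log T with hL
    have hL0 : 0 < L := by linarith
    have hH0 : 0 < H := lt_of_lt_of_le (by positivity) hH1
    have hH3 : 3 ≤ H := by
      rw [div_le_iff₀ hη] at tη
      linarith
    have hLH : L ≤ 1 / 4 * H := by
      have h1 : min (1 / 4) (ε / (16 * (M + 1))) ≤ 1 / 4 := min_le_left _ _
      calc L ≤ (min (1 / 4) (ε / (16 * (M + 1))) * η) * T := tl1
        _ = min (1 / 4) (ε / (16 * (M + 1))) * (η * T) := by ring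
        _ ≤ 1 / 4 * H := mul_le_mul h1 hH1 (by positivity) (by norm_num)
    have hLH2 : (M + 1) * L ≤ ε / 16 * H := by
      have h1 : min (1 / 4) (ε / (16 * (M + 1))) ≤ ε / (16 * (M + 1)) := min_le_right _ _
      calc (M + 1) * L ≤ (M + 1) * ((min (1 / 4) (ε / (16 * (M + 1))) * η) * T) :=
            mul_le_mul_of_nonneg_left tl1 (by linarith)
        _ = (M + 1) * (min (1 / 4) (ε / (16 * (M + 1))) * (η * T)) := by ring
        _ ≤ (M + 1) * (ε / (16 * (M + 1)) * H) := by
            refine mul_le_mul_of_nonneg_left ?_ (by linarith)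
            exact mul_le_mul h1 hH1 (by positivity) (by positivity)
        _ = ε / 16 * H := by field_simp
    set T1 := T + L with hT1
    set T2 := T + H - L with hT2
    have h12 : T1 ≤ T2 := by linarith
    have hmain := hcount T1 T2 le_rfl h12 (by linarith)
    have hint := tmean T1 T2 (by linarith) (by linarith) (by linarith) (by linarith)
    refine ⟨(isoS U1 U2 (δ / L)).filter (fun s => T1 - 1 ≤ s.im ∧ s.im ≤ T2 + 1), ?_, ?_⟩
    · intro s hs
      rw [Finset.mem_filter] at hs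
      obtain ⟨hsI, hs1, hs2⟩ := hs
      unfold isoS at hsI
      rw [Finset.mem_filter] at hsI
      obtain ⟨hsZ, hre, hmul, hiso⟩ := hsI
      have hsz := (mem_Zf good_zeta (by linarith : 1 ≤ U1)).mp hsZ
      refine ⟨⟨hsz.1, hsz.2.1, by linarith, by linarith, hsz.2.2.2.2⟩, hre, hmul, ?_⟩
      intro s' g1 g2 g3 g4
      by_contra hcon
      push Not at hcon
      have hlog : L ≤ Real.log s.im := Real.log_le_log hT0 (by linarith)
      have h5 : δ / Real.log s.im ≤ δ / L := div_le_div_of_nonneg_left hδ.le hL0 hlog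
      have h6 : δ / L ≤ 1 / 10 := by
        rw [div_le_iff₀ hL0]; linarith
      have h7 : ‖s' - s‖ < 1 / 10 := by linarith
      have h8 := (Complex.abs_im_le_norm _).trans_lt h7
      rw [Complex.sub_im, abs_lt] at h8
      have h9 : s' ∈ Zf riemannZeta U1 U2 := by
        refine (mem_Zf good_zeta (by linarith : 1 ≤ U1)).mpr ⟨g2, g3, ?_, ?_, g1⟩
        · linarith [h8.1]
        · linarith [h8.2]
      have h10 := hiso s' h9 g4
      rw [norm_sub_rev] at h10
      linarith
    · by_cases hneg : (2 - cMTinv) * M - ε < 0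
      · exact (mul_nonpos_of_nonpos_of_nonneg hneg.le (Nat.cast_nonneg _)).trans
          (Finset.sum_nonneg fun s _ => h0 _)
      push Not at hneg
      refine le_trans ?_ hmain
      have hN := (abs_le.1 (hnn T tT H hH3 hH2 T (T + H) le_rfl (by linarith) (by linarith) le_rfl)).2
      have hN' : (NN riemannZeta T (T + H) : ℝ) ≤ H * (L / (2 * Real.pi)) + 2 * C * H := by
        have e1 : H * Real.log T / (2 * Real.pi) = H * (L / (2 * Real.pi)) := by rw [← hL]; ring
        have e2 : C * (H + Real.log T ^ 2) ≤ C * (H + H) :=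
          mul_le_mul_of_nonneg_left (by rw [← hL]; linarith) hC.le
        linarith
      have hk1 : (2 - cMTinv) * M - ε ≤ M + 1 := by nlinarith
      have hCH : (M + 1) * (2 * C * H) ≤ ε / 4 * (H * (L / (2 * Real.pi))) := by
        have h1 : (M + 1) * (2 * C) ≤ ε / 4 * (L / (2 * Real.pi)) := by
          rw [mul_div_assoc', le_div_iff₀ (by positivity)]
          have h2 : 2 * Real.pi * (2 * C * (M + 1)) * (4 / ε) = (2 * Real.pi * (2 * C * (M + 1)) * 4) / ε := by
            ring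
          rw [h2, div_le_iff₀ hε] at tC
          nlinarith
        nlinarith
      have hstep : ((2 - cMTinv) * M - ε) * (NN riemannZeta T (T + H) : ℝ) ≤
          ((2 - cMTinv) * M * H - ε * H) * (L / (2 * Real.pi)) + ε / 4 * (H * (L / (2 * Real.pi))) := by
        calc ((2 - cMTinv) * M - ε) * (NN riemannZeta T (T + H) : ℝ) ≤
            ((2 - cMTinv) * M - ε) * (H * (L / (2 * Real.pi)) + 2 * C * H) :=
              mul_le_mul_of_nonneg_left hN' hneg
          _ = ((2 - cMTinv) * M * H - ε * H) * (L / (2 * Real.pi)) +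
              ((2 - cMTinv) * M - ε) * (2 * C * H) := by ring
          _ ≤ _ := by
              have : ((2 - cMTinv) * M - ε) * (2 * C * H) ≤ (M + 1) * (2 * C * H) :=
                mul_le_mul_of_nonneg_right hk1 (by positivity)
              linarith
      refine hstep.trans ?_
      have e1 : ((2 - cMTinv) * M * H - ε * H) * (L / (2 * Real.pi)) + ε / 4 * (H * (L / (2 * Real.pi))) =
          ((2 - cMTinv) * M * H - 3 / 4 * (ε * H)) * (L / (2 * Real.pi)) := by ring
      rw [e1]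
      refine mul_le_mul_of_nonneg_right ?_ (by positivity)
      have e2 : (2 - cMTinv) * (M * (T2 - T1) - ε * η / 8 * T) ≤ (2 - cMTinv) * ∫ t in T1..T2, φ t :=
        mul_le_mul_of_nonneg_left hint (by linarith)
      have e3 : T2 - T1 = H - 2 * L := by rw [hT1, hT2]; ring
      rw [e3] at e2
      have e4 : ε * η / 8 * T ≤ ε / 8 * H := by
        calc ε * η / 8 * T = ε / 8 * (η * T) := by ring
          _ ≤ _ := mul_le_mul_of_nonneg_left hH1 (by positivity)
      have e5 : (2 - cMTinv) * (M * (2 * L) + ε * η / 8 * T) ≤ 1 * (M * (2 * L) + ε * η / 8 * T) := by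
        have : 2 - cMTinv ≤ 1 := by linarith
        exact mul_le_mul_of_nonneg_right this (by positivity)
      have e6 : M * L ≤ (M + 1) * L := by nlinarith
      have e7 : 0 ≤ ε * H := by positivity
      nlinarith
  obtain ⟨T0, hT0⟩ := Filter.eventually_atTop.1 hall
  exact ⟨max T0 10, le_max_right _ _, fun T hT => hT0 T ((le_max_left _ _).trans hT)⟩

end Pool.Agent.U441.BS
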