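import Pool.Agent.Y498.SW.TI
import Pool.Agent.Y840.SW.MVB
import Pool.Agent.TH803.TW.Line
import Pool.Agent.TH803.TW.Far

set_option autoImplicit false

/-!
The twisted mean of the weight `Dq`: it is asymptotically orthogonal to `exp (i μ t)`, `μ ≠ 0`, and
has mean value `Zq`, in all intervals of `[T, 2 T]`.
-/

namespace Pool.Agent.U441.BS

open Finset Pool.Agent.Y745.SW Pool.Agent.Y498.SW MeasureTheory Filter Topology Complex

/-- the exchange of the integrals -/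
theorem assemble2 (R : ℝ → ℝ) (hR : Continuous R) (c : ℕ → ℂ) (B : ℝ → ℝ) (hB : Continuous B)
    (ε τ η1 : ℝ) (hη1 : η1 ≤ 1) (T : ℝ) (Rm ω : ℝ) (hRm : ∀ x ∈ Set.Icc (0:ℝ) 1, |R x| ≤ Rm)
    (hη0 : 0 ≤ η1) (ha : 0 ≤ τ * Real.log T)
    (hu : ∀ y ∈ Set.Icc η1 1, τ * Real.log T ≤ (1 - ε) * Real.log T * y)
    (f : ℝ → ℂ) (hfc : Continuous f) (T1 T2 : ℝ) (χ : ℂ)
    (hω : ∀ y ∈ Set.Icc η1 1, ‖(∫ t in T1..T2, f t *
        ((‖DPp c B (τ * Real.log T) ((1 - ε) * Real.log T * y) (XT ε T) t‖ ^ 2 : ℝ) : ℂ)) -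
      χ * ((∑ n ∈ Icc 1 (XT ε T), ‖dp c B (τ * Real.log T) ((1 - ε) * Real.log T * y) n‖ ^ 2 : ℝ) : ℂ)‖
      ≤ ω) :
    ‖(∫ t in T1..T2, f t * ((Dq R c B ε τ η1 T t : ℝ) : ℂ)) -
      χ * ((Zq R c B ε τ η1 T : ℝ) : ℂ)‖ ≤ 2 * (Rm * ω) := by
  set a := τ * Real.log T with hadef
  set U := (1 - ε) * Real.log T with hU
  set X := XT ε T with hX
  have hde : ∀ y ∈ Set.Icc η1 1, ∀ n, d0 c B a U n y = dp c B a (U * y) n := fun y hy n =>
    d0_eq c B a U y n ha (hu y hy)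
  have hDe : ∀ y ∈ Set.Icc η1 1, ∀ t, D0 c B a U X y t = DPp c B a (U * y) X t := fun y hy t =>
    Finset.sum_congr rfl fun n _ => by rw [hde y hy]
  have hIcc : Set.uIcc η1 1 = Set.Icc η1 1 := Set.uIcc_of_le hη1
  have hDq : ∀ t, ((Dq R c B ε τ η1 T t : ℝ) : ℂ) =
      2 * ∫ y in η1..1, ((R y * ‖D0 c B a U X y t‖ ^ 2 : ℝ) : ℂ) := by
    intro t
    unfold Dq
    rw [intervalIntegral.integral_ofReal]
    push_cast
    congr 2
    apply intervalIntegral.integral_congr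
    intro y hy
    rw [hIcc] at hy
    simp only
    rw [hDe y hy]
  have hZq : ((Zq R c B ε τ η1 T : ℝ) : ℂ) =
      2 * ∫ y in η1..1, ((R y * ∑ n ∈ Icc 1 X, ‖d0 c B a U n y‖ ^ 2 : ℝ) : ℂ) := by
    unfold Zq
    rw [intervalIntegral.integral_ofReal]
    push_cast
    congr 2
    apply intervalIntegral.integral_congr
    intro y hy
    rw [hIcc] at hy
    simp only [hde y hy]
    rfl
  have hDc := D0_cont c B hB a U X
  have hFc : Continuous (Function.uncurry fun (t y : ℝ) => f t * ((R y * ‖D0 c B a U X y t‖ ^ 2 : ℝ) : ℂ)) := by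
    simp only [Function.uncurry_def]
    apply Continuous.mul (hfc.comp continuous_fst)
    apply Complex.continuous_ofReal.comp
    apply Continuous.mul (hR.comp continuous_snd)
    exact ((hDc.comp (continuous_snd.prodMk continuous_fst)).norm).pow 2
  have hswap : ∫ t in T1..T2, f t * ((Dq R c B ε τ η1 T t : ℝ) : ℂ) =
      2 * ∫ y in η1..1, (R y : ℂ) * ∫ t in T1..T2, f t * ((‖D0 c B a U X y t‖ ^ 2 : ℝ) : ℂ) := by
    have e1 : ∀ t, f t * ((Dq R c B ε τ η1 T t : ℝ) : ℂ) =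
        2 * ∫ y in η1..1, f t * ((R y * ‖D0 c B a U X y t‖ ^ 2 : ℝ) : ℂ) := by
      intro t
      rw [hDq, intervalIntegral.integral_const_mul]
      ring
    rw [intervalIntegral.integral_congr fun t _ => e1 t, intervalIntegral.integral_const_mul]
    congr 1
    rw [MeasureTheory.intervalIntegral_intervalIntegral_swap]
    · apply intervalIntegral.integral_congr
      intro y _
      simp only
      rw [← intervalIntegral.integral_const_mul]
      apply intervalIntegral.integral_congr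
      intro t _
      simp only
      push_cast
      ring
    · apply (hFc.continuousOn.integrableOn_compact
        (isCompact_uIcc.prod isCompact_uIcc) : IntegrableOn _ (Set.uIcc T1 T2 ×ˢ Set.uIcc η1 1) _).mono_set
      exact Set.prod_mono Set.uIoc_subset_uIcc Set.uIoc_subset_uIcc
  have hi1 : Continuous fun y : ℝ => (R y : ℂ) * ∫ t in T1..T2, f t * ((‖D0 c B a U X y t‖ ^ 2 : ℝ) : ℂ) := by
    apply Continuous.mul (Complex.continuous_ofReal.comp hR)
    apply intervalIntegral.continuous_parametric_intervalIntegral_of_continuous'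
    simp only [Function.uncurry_def]
    apply Continuous.mul (hfc.comp continuous_snd)
    apply Complex.continuous_ofReal.comp
    exact (hDc.norm).pow 2
  have hi2 : Continuous fun y : ℝ => ((R y * ∑ n ∈ Icc 1 X, ‖d0 c B a U n y‖ ^ 2 : ℝ) : ℂ) := by
    apply Complex.continuous_ofReal.comp
    apply hR.mul
    apply continuous_finsetSum
    intro n _
    exact ((d0_cont c B hB a U n).norm).pow 2
  have hmain : (∫ t in T1..T2, f t * ((Dq R c B ε τ η1 T t : ℝ) : ℂ)) -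
      χ * ((Zq R c B ε τ η1 T : ℝ) : ℂ) =
      2 * ∫ y in η1..1, ((R y : ℂ) * ((∫ t in T1..T2, f t * ((‖D0 c B a U X y t‖ ^ 2 : ℝ) : ℂ)) -
        χ * ((∑ n ∈ Icc 1 X, ‖d0 c B a U n y‖ ^ 2 : ℝ) : ℂ))) := by
    rw [hswap, hZq]
    have e2 : ∀ y : ℝ, ((R y : ℂ) * ((∫ t in T1..T2, f t * ((‖D0 c B a U X y t‖ ^ 2 : ℝ) : ℂ)) -
        χ * ((∑ n ∈ Icc 1 X, ‖d0 c B a U n y‖ ^ 2 : ℝ) : ℂ))) =
        ((R y : ℂ) * ∫ t in T1..T2, f t * ((‖D0 c B a U X y t‖ ^ 2 : ℝ) : ℂ)) -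
        χ * ((R y * ∑ n ∈ Icc 1 X, ‖d0 c B a U n y‖ ^ 2 : ℝ) : ℂ) := by
      intro y
      push_cast
      ring
    rw [intervalIntegral.integral_congr fun y _ => e2 y, intervalIntegral.integral_sub,
      intervalIntegral.integral_const_mul]
    · ring
    · exact hi1.intervalIntegrable _ _
    · exact (continuous_const.mul hi2).intervalIntegrable _ _
  rw [hmain, norm_mul]
  have h2 : ‖(2:ℂ)‖ = 2 := by simp
  rw [h2]
  apply mul_le_mul_of_nonneg_left _ (by norm_num)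
  have hRm0 : 0 ≤ Rm := (abs_nonneg _).trans (hRm 0 (by norm_num))
  have hω0 : 0 ≤ ω := (norm_nonneg _).trans (hω 1 ⟨hη1, le_rfl⟩)
  have hb : ∀ y ∈ Set.uIoc η1 1, ‖((R y : ℂ) * ((∫ t in T1..T2, f t *
      ((‖D0 c B a U X y t‖ ^ 2 : ℝ) : ℂ)) - χ * ((∑ n ∈ Icc 1 X, ‖d0 c B a U n y‖ ^ 2 : ℝ) : ℂ)))‖ ≤
      Rm * ω := by
    intro y hy
    rw [Set.uIoc_of_le hη1] at hy
    have hy' : y ∈ Set.Icc η1 1 := ⟨hy.1.le, hy.2⟩
    rw [norm_mul, Complex.norm_real, Real.norm_eq_abs]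
    apply mul_le_mul (hRm y ⟨hη0.trans hy'.1, hy'.2⟩) _ (norm_nonneg _) hRm0
    refine le_trans (le_of_eq ?_) (hω y hy')
    congr 2
    · apply intervalIntegral.integral_congr
      intro t _
      simp only
      rw [hDe y hy']
    · rw [Finset.sum_congr rfl fun n _ => by rw [hde y hy' n]]
  refine (intervalIntegral.norm_integral_le_of_norm_le_const hb).trans ?_
  have h3 : |1 - η1| ≤ 1 := by rw [abs_of_nonneg (by linarith)]; linarith
  exact mul_le_of_le_one_right (by positivity) h3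

end Pool.Agent.U441.BS
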