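import Pool.Agent.U441.BS.TwDq

set_option autoImplicit false

/-!
The twisted mean of the weight `Dq`, the choice of the parameters.
-/

namespace Pool.Agent.U441.BS

open Finset Pool.Agent.Y745.SW Pool.Agent.Y498.SW MeasureTheory Filter Topology Complex

lemma ev_log_pow (c d e : ℝ) (k : ℕ) (hc : 0 < c) (hd : 0 < d) (he : 0 < e) :
    ∀ᶠ T : ℝ in atTop, d * (1 + Real.log T) ^ k ≤ c * T ^ e := by
  rcases Nat.eq_zero_or_pos k with rfl | hk
  · filter_upwards [(tendsto_rpow_atTop he).eventually_ge_atTop (d / c)] with T hT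
    rw [div_le_iff₀ hc] at hT
    simp only [pow_zero, mul_one]
    linarith
  have h1 : (fun T : ℝ => 1 + Real.log T) =o[atTop] fun T : ℝ => T ^ (e / k) := by
    have h2 : (fun _ : ℝ => (1 : ℝ)) =o[atTop] fun T : ℝ => T ^ (e / k) := by
      rw [Asymptotics.isLittleO_const_left]
      right
      exact tendsto_norm_atTop_atTop.comp (tendsto_rpow_atTop (by positivity))
    exact h2.add (isLittleO_log_rpow_atTop (by positivity))
  have h3 := (h1.pow hk).bound (show 0 < c / d by positivity)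
  filter_upwards [h3, eventually_ge_atTop 1] with T hT hT1
  have hT0 : (0 : ℝ) < T := by linarith
  have hl : 0 ≤ Real.log T := Real.log_nonneg hT1
  have e1 : (T ^ (e / k)) ^ k = T ^ e := by
    rw [← Real.rpow_natCast, ← Real.rpow_mul hT0.le]
    congr 1
    have : (k : ℝ) ≠ 0 := by positivity
    field_simp
  rw [Real.norm_of_nonneg (by positivity), Real.norm_of_nonneg (by positivity), e1] at hT
  calc d * (1 + Real.log T) ^ k ≤ d * (c / d * T ^ e) := by gcongr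
    _ = _ := by field_simp

/-- the hypotheses of the coefficient bounds -/
theorem hypo {c : ℕ → ℂ} {B : ℝ → ℝ} {b ε τ η1 : ℝ}
    (hc : ∀ n, ‖c n‖ ≤ ArithmeticFunction.vonMangoldt n)
    (hb : ∀ ξ ∈ Set.Icc (-1:ℝ) 1, |B ξ| ≤ b) (hε : 0 < ε) (hε2 : ε < 1 / 2) (hτ : 0 < τ)
    (hη : 4 * τ ≤ η1) {T y : ℝ} (hy : η1 ≤ y) (hT : 0 < T) (hL : 1 ≤ Real.log T) :
    Hyp c B b (Real.log T) τ (τ * Real.log T) ((1 - ε) * Real.log T * y) (XT ε T) ∧
      (XT ε T : ℝ) ≤ T ^ (1 - ε / 4) ∧ Real.log (XT ε T) ≤ Real.log T := by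
  set L := Real.log T with hLdef
  have hLpos : 0 < L := by linarith
  set a := τ * L with ha
  set u := (1 - ε) * L * y with hu
  set X := XT ε T with hX
  have hTexp : T = Real.exp L := (Real.exp_log hT).symm
  have hT1 : 1 ≤ T := by rw [hTexp]; exact Real.one_le_exp hLpos.le
  have hX1 : (X : ℝ) ≤ T ^ (1 - ε / 4) := Nat.floor_le (by positivity)
  have hXT : (X : ℝ) ≤ T := by
    refine hX1.trans ?_
    calc T ^ (1 - ε / 4) ≤ T ^ (1 : ℝ) := Real.rpow_le_rpow_of_exponent_le hT1 (by linarith)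
      _ = T := Real.rpow_one T
  have hXlog : ∀ n : ℕ, 1 ≤ n → n ≤ X → Real.log n ≤ L := by
    intro n hn hn'
    have h1 : (n : ℝ) ≤ T := by
      have h2 : (n : ℝ) ≤ X := by exact_mod_cast hn'
      exact h2.trans hXT
    have h0 : (0:ℝ) < n := by exact_mod_cast (by omega : 0 < n)
    exact Real.log_le_log h0 h1
  refine ⟨⟨hc, hb, hL, hτ, ha, ?_, hXlog⟩, hX1, ?_⟩
  · have h1 : 4 * τ ≤ y := hη.trans hy
    have h2 : (1:ℝ) / 2 ≤ 1 - ε := by linarith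
    have h3 : 0 ≤ L * y := mul_nonneg hLpos.le (by linarith)
    calc 2 * a = 1 / 2 * (L * (4 * τ)) := by rw [ha]; ring
      _ ≤ 1 / 2 * (L * y) := by gcongr
      _ ≤ (1 - ε) * (L * y) := mul_le_mul_of_nonneg_right h2 h3
      _ = u := by rw [hu]; ring
  · rcases Nat.eq_zero_or_pos X with h0 | h0
    · rw [h0]; simp; linarith
    · exact hXlog X h0 le_rfl

/-- the sum of the squares -/
theorem crude' {c : ℕ → ℂ} {B : ℝ → ℝ} {b L τ a u : ℝ} {X : ℕ} (h : Hyp c B b L τ a u X) :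
    ∑ n ∈ Icc 1 X, ‖dp c B a u n‖ ^ 2 ≤ b ^ 2 * (1 + L) ^ 3 := by
  refine h.crude.trans ?_
  have hL := h.hL
  have h1 : L ^ 2 * (1 + L) ≤ (1 + L) ^ 3 := by nlinarith [sq_nonneg L]
  calc L ^ 2 * (1 + L) * b ^ 2 ≤ (1 + L) ^ 3 * b ^ 2 := mul_le_mul_of_nonneg_right h1 (sq_nonneg b)
    _ = _ := by ring

/-- the size of one coefficient -/
theorem dp_le {c : ℕ → ℂ} {B : ℝ → ℝ} {b L τ a u : ℝ} {X : ℕ} (h : Hyp c B b L τ a u X) (n : ℕ) :
    ‖dp c B a u n‖ ≤ b / a * (ArithmeticFunction.vonMangoldt n / Real.sqrt n) := by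
  unfold dp
  rw [norm_mul, Complex.norm_real, Real.norm_eq_abs, abs_mul, abs_of_nonneg (by positivity)]
  have h1 := h.hc n
  have h2 := h.Gd (Real.log n)
  have h3 : 0 ≤ ArithmeticFunction.vonMangoldt n := ArithmeticFunction.vonMangoldt_nonneg
  calc ‖c n‖ * ((Real.sqrt n)⁻¹ * |Gp B a u (Real.log n)|) ≤
      ArithmeticFunction.vonMangoldt n * ((Real.sqrt n)⁻¹ * (b / a)) := by gcongr
    _ = _ := by rw [div_eq_mul_inv (ArithmeticFunction.vonMangoldt n)]; ring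

/-- the untwisted mean, one `y` -/
theorem one_zero {c : ℕ → ℂ} {B : ℝ → ℝ} {b ε τ η1 : ℝ}
    (hc : ∀ n, ‖c n‖ ≤ ArithmeticFunction.vonMangoldt n)
    (hb : ∀ ξ ∈ Set.Icc (-1:ℝ) 1, |B ξ| ≤ b) (hε : 0 < ε) (hε2 : ε < 1 / 2) (hτ : 0 < τ)
    (hη : 4 * τ ≤ η1) {κ : ℝ} (hκ : 0 < κ) :
    ∀ᶠ T : ℝ in atTop, ∀ y, η1 ≤ y → ∀ T1 T2 : ℝ, T1 ≤ T2 → T2 - T1 ≤ T →
    ‖(∫ t in T1..T2, (1 : ℂ) *
        ((‖DPp c B (τ * Real.log T) ((1 - ε) * Real.log T * y) (XT ε T) t‖ ^ 2 : ℝ) : ℂ)) -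
      ((T2 - T1 : ℝ) : ℂ) *
        ((∑ n ∈ Icc 1 (XT ε T), ‖dp c B (τ * Real.log T) ((1 - ε) * Real.log T * y) n‖ ^ 2 : ℝ) : ℂ)‖
      ≤ κ * T := by
  have ev := ev_log_pow κ (8 * (b ^ 2 + 1)) (ε / 4) 4 hκ (by positivity) (by positivity)
  filter_upwards [ev, Real.tendsto_log_atTop.eventually_ge_atTop 1, eventually_gt_atTop 0]
    with T e1 hL hT y hy T1 T2 h12 _
  obtain ⟨hh, hX1, hX2⟩ := hypo hc hb hε hε2 hτ hη hy hT hL
  have hcr := crude' hh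
  set L := Real.log T with hLdef
  set a := τ * L with ha
  set u := (1 - ε) * L * y with hu
  set X := XT ε T with hX
  set S2 := ∑ n ∈ Icc 1 X, ‖dp c B a u n‖ ^ 2 with hS2
  have hS20 : 0 ≤ S2 := Finset.sum_nonneg fun n _ => by positivity
  have h1 := Pool.Agent.Y840.SW.t_MVB X T1 T2 h12 (dp c B a u) (dp c B a u)
  have e2 : ∀ t : ℝ, (1 : ℂ) * ((‖DPp c B a u X t‖ ^ 2 : ℝ) : ℂ) =
      (∑ n ∈ Finset.Icc 1 X, dp c B a u n * (n : ℂ) ^ (-(t : ℂ) * I)) *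
      (starRingEnd ℂ) (∑ n ∈ Finset.Icc 1 X, dp c B a u n * (n : ℂ) ^ (-(t : ℂ) * I)) := by
    intro t
    rw [one_mul, Complex.mul_conj']
    unfold DPp
    push_cast
    rfl
  have e3 : ((S2 : ℝ) : ℂ) = ∑ n ∈ Finset.Icc 1 X, dp c B a u n * (starRingEnd ℂ) (dp c B a u n) := by
    rw [hS2]
    push_cast
    refine Finset.sum_congr rfl fun n _ => ?_
    rw [Complex.mul_conj']
  rw [intervalIntegral.integral_congr fun t _ => e2 t, e3]
  refine h1.trans ?_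
  rw [Real.mul_self_sqrt hS20]
  have hlX : 0 ≤ Real.log X := Real.log_natCast_nonneg X
  have hL0 : 0 ≤ L := by linarith
  have hTe : T ^ (1 - ε / 4) * T ^ (ε / 4) = T := by
    rw [← Real.rpow_add hT, sub_add_cancel, Real.rpow_one]
  have hTp : 0 < T ^ (1 - ε / 4) := Real.rpow_pos_of_pos hT _
  calc 8 * (X : ℝ) * (1 + Real.log X) * S2 ≤
      8 * T ^ (1 - ε / 4) * (1 + L) * (b ^ 2 * (1 + L) ^ 3) := by gcongr
    _ = T ^ (1 - ε / 4) * (8 * b ^ 2 * (1 + L) ^ 4) := by ring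
    _ ≤ T ^ (1 - ε / 4) * (8 * (b ^ 2 + 1) * (1 + L) ^ 4) := by gcongr; linarith
    _ ≤ T ^ (1 - ε / 4) * (κ * T ^ (ε / 4)) := by gcongr
    _ = κ * (T ^ (1 - ε / 4) * T ^ (ε / 4)) := by ring
    _ = κ * T := by rw [hTe]

/-- the twisted mean, one `y` -/
theorem one_ne {c : ℕ → ℂ} {B : ℝ → ℝ} {b ε τ η1 : ℝ}
    (hc : ∀ n, ‖c n‖ ≤ ArithmeticFunction.vonMangoldt n)
    (hb : ∀ ξ ∈ Set.Icc (-1:ℝ) 1, |B ξ| ≤ b) (hε : 0 < ε) (hε2 : ε < 1 / 2) (hτ : 0 < τ)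
    (hη : 4 * τ ≤ η1) {μ : ℝ} (hμ : μ ≠ 0) {κ : ℝ} (hκ : 0 < κ) :
    ∀ᶠ T : ℝ in atTop, ∀ y, η1 ≤ y → ∀ T1 T2 : ℝ, T1 ≤ T2 → T2 - T1 ≤ T →
    ‖(∫ t in T1..T2, cexp (I * μ * t) *
        ((‖DPp c B (τ * Real.log T) ((1 - ε) * Real.log T * y) (XT ε T) t‖ ^ 2 : ℝ) : ℂ)) -
      (0 : ℂ) *
        ((∑ n ∈ Icc 1 (XT ε T), ‖dp c B (τ * Real.log T) ((1 - ε) * Real.log T * y) n‖ ^ 2 : ℝ) : ℂ)‖
      ≤ κ * T := by
  set r : ℝ := Real.exp (-μ) with hr
  have hr0 : 0 < r := Real.exp_pos _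
  have hr1 : r ≠ 1 := by
    rw [hr, Ne, Real.exp_eq_one_iff, neg_eq_zero]
    exact hμ
  obtain ⟨C, δ₀, hC, hδ₀, hnear⟩ := TH803TW.near_sum hr0 hr1
  set M : ℝ := max 1 r with hM
  have hM1 : 1 ≤ M := le_max_left _ _
  have hM0 : 0 < M := by linarith
  have hb0 : 0 ≤ b := (abs_nonneg _).trans (hb 0 (by norm_num))
  have ev1 : ∀ᶠ T : ℝ in atTop, 1 / δ₀ ≤ T ^ (ε / 8) :=
    (tendsto_rpow_atTop (by positivity)).eventually_ge_atTop _
  have ev2 := ev_log_pow 1 1 (ε / 8) 3 one_pos one_pos (by positivity)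
  have ev3 : ∀ᶠ T : ℝ in atTop, 2 * C * (b / (τ * Real.log T)) ^ 2 ≤ κ / 2 := by
    have h1 : Tendsto (fun T : ℝ => 2 * C * (b / (τ * Real.log T)) ^ 2) atTop (𝓝 (2 * C * 0 ^ 2)) := by
      refine Tendsto.const_mul _ (Tendsto.pow ?_ 2)
      exact Tendsto.const_div_atTop (Real.tendsto_log_atTop.const_mul_atTop hτ) b
    rw [zero_pow (by norm_num), mul_zero] at h1
    exact h1.eventually_le_const (by positivity)
  have ev4 := ev_log_pow (κ / 4) (4 * M * (b ^ 2 + 1)) (ε / 8) 3 (by positivity) (by positivity)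
    (by positivity)
  have ev5 := ev_log_pow (κ / 4) (2 * M * (1 + 1 / r) * (b ^ 2 + 1)) (ε / 4) 4 (by positivity)
    (by positivity) (by positivity)
  filter_upwards [ev1, ev2, ev3, ev4, ev5, Real.tendsto_log_atTop.eventually_ge_atTop 1,
    eventually_gt_atTop 0] with T e1 e2 e3 e4 e5 hL hT y hy T1 T2 h12 h12T
  obtain ⟨hh, hX1, hX2⟩ := hypo hc hb hε hε2 hτ hη hy hT hL
  have hcr := crude' hh
  have hdp := dp_le hh
  set L := Real.log T with hLdef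
  set a := τ * L with ha
  set u := (1 - ε) * L * y with hu
  set X := XT ε T with hX
  set S2 := ∑ n ∈ Icc 1 X, ‖dp c B a u n‖ ^ 2 with hS2
  have hL0 : 0 < L := by linarith
  have ha0 : 0 < a := by positivity
  have hlX : 0 ≤ Real.log X := Real.log_natCast_nonneg X
  set δ : ℝ := T ^ (-(ε / 8)) with hδ
  have hδ0 : 0 < δ := Real.rpow_pos_of_pos hT _
  have hδinv : 1 / δ = T ^ (ε / 8) := by
    rw [hδ, Real.rpow_neg hT.le, one_div, inv_inv]
  have hδδ : δ ≤ δ₀ := by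
    rw [← hδinv] at e1
    exact (one_div_le_one_div hδ₀ hδ0).1 e1
  rw [zero_mul, sub_zero]
  have e6 : ∀ t : ℝ, cexp (I * μ * t) * ((‖DPp c B a u X t‖ ^ 2 : ℝ) : ℂ) =
      ((‖∑ n ∈ Icc 1 X, dp c B a u n * (n : ℂ) ^ (-(t : ℂ) * I)‖ ^ 2 : ℝ) : ℂ) *
        cexp (I * μ * t) := by
    intro t
    rw [mul_comm]
    rfl
  rw [intervalIntegral.integral_congr fun t _ => e6 t]
  refine (TH803TW.tw_mean (dp c B a u) X T1 T2 μ δ h12 hδ0).trans ?_
  rw [← hr, ← hM, ← hS2]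
  have hn := hnear δ hδ0 hδδ X
  have hn2 : δ * (1 + Real.log X) ^ 3 ≤ 1 := by
    have h1 : (1 + Real.log X) ^ 3 ≤ (1 + L) ^ 3 := by gcongr
    have h2 : (1 + L) ^ 3 ≤ T ^ (ε / 8) := by linarith
    calc δ * (1 + Real.log X) ^ 3 ≤ δ * T ^ (ε / 8) := by
          gcongr
          exact h1.trans h2
      _ = 1 := by rw [← hδinv]; field_simp
  have hnn : ∑ p ∈ TH803TW.near r δ X, ‖dp c B a u p.1‖ * ‖dp c B a u p.2‖ ≤ κ / 2 := by
    calc ∑ p ∈ TH803TW.near r δ X, ‖dp c B a u p.1‖ * ‖dp c B a u p.2‖ ≤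
        ∑ p ∈ TH803TW.near r δ X, (b / a) ^ 2 * (ArithmeticFunction.vonMangoldt p.1 *
          ArithmeticFunction.vonMangoldt p.2 / Real.sqrt ((p.1 : ℝ) * p.2)) := by
          refine Finset.sum_le_sum fun p _ => ?_
          calc ‖dp c B a u p.1‖ * ‖dp c B a u p.2‖ ≤
              (b / a * (ArithmeticFunction.vonMangoldt p.1 / Real.sqrt p.1)) *
              (b / a * (ArithmeticFunction.vonMangoldt p.2 / Real.sqrt p.2)) := by
                have h3 := hdp p.1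
                have h4 := hdp p.2
                have h5 : 0 ≤ b / a * (ArithmeticFunction.vonMangoldt p.1 / Real.sqrt p.1) :=
                  (norm_nonneg _).trans h3
                gcongr
            _ = _ := by
                rw [Real.sqrt_mul (Nat.cast_nonneg _)]
                rw [← div_mul_div_comm]
                ring
      _ = (b / a) ^ 2 * ∑ p ∈ TH803TW.near r δ X, (ArithmeticFunction.vonMangoldt p.1 *
          ArithmeticFunction.vonMangoldt p.2 / Real.sqrt ((p.1 : ℝ) * p.2)) := by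
          rw [Finset.mul_sum]
      _ ≤ (b / a) ^ 2 * (C * (1 + 1)) := by
          refine mul_le_mul_of_nonneg_left (hn.trans ?_) (by positivity)
          gcongr
      _ = 2 * C * (b / a) ^ 2 := by ring
      _ ≤ κ / 2 := e3
  have hTe : T ^ (1 - ε / 4) * T ^ (ε / 4) = T := by
    rw [← Real.rpow_add hT, sub_add_cancel, Real.rpow_one]
  have hTe8 : T ^ (ε / 8) * T ^ (ε / 8) = T ^ (ε / 4) := by
    rw [← Real.rpow_add hT]; congr 1; ring
  have hTp : 0 < T ^ (1 - ε / 4) := Real.rpow_pos_of_pos hT _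
  have hT8 : 0 < T ^ (ε / 8) := Real.rpow_pos_of_pos hT _
  have hfar : 2 * (X * M) * ((2 / δ + (1 + 1 / r) * (1 + Real.log X)) * S2) ≤ κ / 2 * T := by
    have h1 : 2 / δ = 2 * T ^ (ε / 8) := by rw [← hδinv]; ring
    rw [h1]
    calc 2 * (X * M) * ((2 * T ^ (ε / 8) + (1 + 1 / r) * (1 + Real.log X)) * S2) ≤
        2 * (T ^ (1 - ε / 4) * M) * ((2 * T ^ (ε / 8) + (1 + 1 / r) * (1 + L)) *
          ((b ^ 2 + 1) * (1 + L) ^ 3)) := by
          have h2 : S2 ≤ (b ^ 2 + 1) * (1 + L) ^ 3 := by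
            refine hcr.trans ?_
            gcongr
            linarith
          have h3 : 0 ≤ S2 := Finset.sum_nonneg fun n _ => by positivity
          gcongr
      _ = T ^ (1 - ε / 4) * (T ^ (ε / 8) * (4 * M * (b ^ 2 + 1) * (1 + L) ^ 3) +
          2 * M * (1 + 1 / r) * (b ^ 2 + 1) * (1 + L) ^ 4) := by ring
      _ ≤ T ^ (1 - ε / 4) * (T ^ (ε / 8) * (κ / 4 * T ^ (ε / 8)) + κ / 4 * T ^ (ε / 4)) := by
          gcongr
      _ = κ / 4 * (T ^ (1 - ε / 4) * (T ^ (ε / 8) * T ^ (ε / 8))) +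
          κ / 4 * (T ^ (1 - ε / 4) * T ^ (ε / 4)) := by ring
      _ = κ / 2 * T := by rw [hTe8, hTe]; ring
  have h12' : 0 ≤ T2 - T1 := by linarith
  have hs0 : 0 ≤ ∑ p ∈ TH803TW.near r δ X, ‖dp c B a u p.1‖ * ‖dp c B a u p.2‖ :=
    Finset.sum_nonneg fun p _ => by positivity
  calc _ ≤ T * (κ / 2) + κ / 2 * T := by
        refine add_le_add ?_ hfar
        exact mul_le_mul h12T hnn hs0 hT.le
    _ = κ * T := by ring

/-- the twisted mean of `Dq` -/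
theorem Dq_ne {R : ℝ → ℝ} (hR : Continuous R) {c : ℕ → ℂ} {B : ℝ → ℝ} (hB : Continuous B) {ε τ : ℝ}
    (hc : ∀ n, ‖c n‖ ≤ ArithmeticFunction.vonMangoldt n) (hε : 0 < ε) (hε2 : ε < 1 / 2) (hτ : 0 < τ)
    (hτε : τ ≤ ε / 4) {μ : ℝ} (hμ : μ ≠ 0) {κ : ℝ} (hκ : 0 < κ) :
    ∀ᶠ T : ℝ in atTop, ∀ T1 T2 : ℝ, T1 ≤ T2 → T2 - T1 ≤ T →
    ‖∫ t in T1..T2, cexp (I * μ * t) * ((Dq R c B ε τ (4 * τ) T t : ℝ) : ℂ)‖ ≤ κ * T := by
  obtain ⟨b, hb⟩ := (isCompact_Icc (a := (-1:ℝ)) (b := 1)).exists_bound_of_continuousOn hB.continuousOn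
  obtain ⟨Rm, hRm⟩ := (isCompact_Icc (a := (0:ℝ)) (b := 1)).exists_bound_of_continuousOn hR.continuousOn
  have hRm0 : 0 ≤ Rm := (norm_nonneg _).trans (hRm 0 (by norm_num))
  have h := one_ne (b := b) (η1 := 4 * τ) hc (fun ξ hξ => by simpa using hb ξ hξ) hε hε2 hτ le_rfl hμ
    (κ := κ / (2 * (Rm + 1))) (by positivity)
  filter_upwards [h, Real.tendsto_log_atTop.eventually_ge_atTop 1, eventually_gt_atTop 0]
    with T h1 hL hT T1 T2 h12 h12T
  have hL0 : 0 < Real.log T := by linarith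
  have hkey := assemble2 R hR c B hB ε τ (4 * τ) (by linarith) T Rm (κ / (2 * (Rm + 1)) * T)
    (fun x hx => by simpa using hRm x hx) (by linarith) (by positivity)
    (fun y hy => by
      have h7 : 4 * τ ≤ y := hy.1
      have h8 : (1:ℝ) / 2 ≤ 1 - ε := by linarith
      have h9 : τ ≤ (1 - ε) * y := by nlinarith
      calc τ * Real.log T ≤ ((1 - ε) * y) * Real.log T := mul_le_mul_of_nonneg_right h9 hL0.le
        _ = (1 - ε) * Real.log T * y := by ring)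
    (fun t => cexp (I * μ * t)) (by fun_prop) T1 T2 0
    (fun y hy => h1 y hy.1 T1 T2 h12 h12T)
  rw [zero_mul, sub_zero] at hkey
  refine hkey.trans ?_
  have h2 : 2 * (Rm * (κ / (2 * (Rm + 1)) * T)) = Rm / (Rm + 1) * (κ * T) := by field_simp
  rw [h2]
  have h3 : Rm / (Rm + 1) ≤ 1 := by rw [div_le_one (by linarith)]; linarith
  calc Rm / (Rm + 1) * (κ * T) ≤ 1 * (κ * T) := by gcongr
    _ = κ * T := one_mul _

/-- the mean of `Dq` -/
theorem Dq_zero {R : ℝ → ℝ} (hR : Continuous R) {c : ℕ → ℂ} {B : ℝ → ℝ} (hB : Continuous B) {ε τ : ℝ}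
    (hc : ∀ n, ‖c n‖ ≤ ArithmeticFunction.vonMangoldt n) (hε : 0 < ε) (hε2 : ε < 1 / 2) (hτ : 0 < τ)
    (hτε : τ ≤ ε / 4) {κ : ℝ} (hκ : 0 < κ) :
    ∀ᶠ T : ℝ in atTop, ∀ T1 T2 : ℝ, T1 ≤ T2 → T2 - T1 ≤ T →
    |(∫ t in T1..T2, Dq R c B ε τ (4 * τ) T t) - (T2 - T1) * Zq R c B ε τ (4 * τ) T| ≤ κ * T := by
  obtain ⟨b, hb⟩ := (isCompact_Icc (a := (-1:ℝ)) (b := 1)).exists_bound_of_continuousOn hB.continuousOn
  obtain ⟨Rm, hRm⟩ := (isCompact_Icc (a := (0:ℝ)) (b := 1)).exists_bound_of_continuousOn hR.continuousOn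
  have hRm0 : 0 ≤ Rm := (norm_nonneg _).trans (hRm 0 (by norm_num))
  have h := one_zero (b := b) (η1 := 4 * τ) hc (fun ξ hξ => by simpa using hb ξ hξ) hε hε2 hτ le_rfl
    (κ := κ / (2 * (Rm + 1))) (by positivity)
  filter_upwards [h, Real.tendsto_log_atTop.eventually_ge_atTop 1, eventually_gt_atTop 0]
    with T h1 hL hT T1 T2 h12 h12T
  have hL0 : 0 < Real.log T := by linarith
  have hkey := assemble2 R hR c B hB ε τ (4 * τ) (by linarith) T Rm (κ / (2 * (Rm + 1)) * T)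
    (fun x hx => by simpa using hRm x hx) (by linarith) (by positivity)
    (fun y hy => by
      have h7 : 4 * τ ≤ y := hy.1
      have h8 : (1:ℝ) / 2 ≤ 1 - ε := by linarith
      have h9 : τ ≤ (1 - ε) * y := by nlinarith
      calc τ * Real.log T ≤ ((1 - ε) * y) * Real.log T := mul_le_mul_of_nonneg_right h9 hL0.le
        _ = (1 - ε) * Real.log T * y := by ring)
    (fun _ => 1) (by fun_prop) T1 T2 ((T2 - T1 : ℝ) : ℂ)
    (fun y hy => h1 y hy.1 T1 T2 h12 h12T)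
  have e1 : (∫ t in T1..T2, (1 : ℂ) * ((Dq R c B ε τ (4 * τ) T t : ℝ) : ℂ)) -
      ((T2 - T1 : ℝ) : ℂ) * ((Zq R c B ε τ (4 * τ) T : ℝ) : ℂ) =
      (((∫ t in T1..T2, Dq R c B ε τ (4 * τ) T t) - (T2 - T1) * Zq R c B ε τ (4 * τ) T : ℝ) : ℂ) := by
    simp only [one_mul]
    rw [intervalIntegral.integral_ofReal]
    push_cast
    ring
  rw [e1, Complex.norm_real, Real.norm_eq_abs] at hkey
  refine hkey.trans ?_
  have h2 : 2 * (Rm * (κ / (2 * (Rm + 1)) * T)) = Rm / (Rm + 1) * (κ * T) := by field_simp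
  rw [h2]
  have h3 : Rm / (Rm + 1) ≤ 1 := by rw [div_le_one (by linarith)]; linarith
  calc Rm / (Rm + 1) * (κ * T) ≤ 1 * (κ * T) := by gcongr
    _ = κ * T := one_mul _

end Pool.Agent.U441.BS
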