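import Pool.Agent.U441.BS.Comp

set_option autoImplicit false

/-!
Weights that are asymptotically orthogonal to the nontrivial characters: integrals against almost
periodic functions and over level sets of almost periodic functions.
-/

namespace Pool.Agent.U441.BS

open Filter Topology Complex MeasureTheory

/-- a family of weights `D T` with mean value `Z T`, asymptotically orthogonal to the nontrivial
characters -/
structure Wgt (D : ℝ → ℝ → ℝ) (Z : ℝ → ℝ) (K0 : ℝ) : Prop where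
  ne : ∀ μ : ℝ, μ ≠ 0 → ∀ κ : ℝ, 0 < κ → ∀ᶠ T : ℝ in atTop, ∀ T1 T2 : ℝ, T1 ≤ T2 → T2 - T1 ≤ T →
    ‖∫ t in T1..T2, cexp (I * μ * t) * ((D T t : ℝ) : ℂ)‖ ≤ κ * T
  zero : ∀ κ : ℝ, 0 < κ → ∀ᶠ T : ℝ in atTop, ∀ T1 T2 : ℝ, T1 ≤ T2 → T2 - T1 ≤ T →
    |(∫ t in T1..T2, D T t) - (T2 - T1) * Z T| ≤ κ * T
  cont : ∀ᶠ T : ℝ in atTop, Continuous (D T)
  nonneg : ∀ᶠ T : ℝ in atTop, ∀ t, 0 ≤ D T t
  Zb : ∀ᶠ T : ℝ in atTop, 0 ≤ Z T ∧ Z T ≤ K0

lemma exp_norm (μ t : ℝ) : ‖cexp (I * μ * t)‖ = 1 := by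
  have : I * (μ : ℂ) * t = ((μ * t : ℝ) : ℂ) * I := by push_cast; ring
  rw [this, Complex.norm_exp_ofReal_mul_I]

lemma exp_int {μ : ℝ} (hμ : μ ≠ 0) (A B : ℝ) : ‖∫ t in A..B, cexp (I * (μ : ℂ) * t)‖ ≤ 2 / |μ| := by
  have hc : I * (μ : ℂ) ≠ 0 := mul_ne_zero I_ne_zero (by exact_mod_cast hμ)
  rw [integral_exp_mul_complex hc, norm_div, norm_mul, norm_I, one_mul, Complex.norm_real,
    Real.norm_eq_abs]
  gcongr
  refine (norm_sub_le _ _).trans ?_
  rw [exp_norm, exp_norm]; norm_num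

/-- the constant weight -/
lemma Wgt_one : Wgt (fun _ _ => 1) (fun _ => 1) 1 where
  ne μ hμ κ hκ := by
    filter_upwards [eventually_ge_atTop (2 / |μ| / κ)] with T hT T1 T2 _ _
    have h1 := exp_int hμ T1 T2
    rw [div_le_iff₀ hκ] at hT
    simp only [Complex.ofReal_one, mul_one]
    linarith
  zero κ hκ := by
    filter_upwards [eventually_ge_atTop 0] with T hT T1 T2 _ _
    simp only [intervalIntegral.integral_const, smul_eq_mul, mul_one, sub_self, abs_zero]
    positivity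
  cont := Eventually.of_forall fun _ => continuous_const
  nonneg := Eventually.of_forall fun _ _ => zero_le_one
  Zb := Eventually.of_forall fun _ => ⟨zero_le_one, le_rfl⟩

variable {D : ℝ → ℝ → ℝ} {Z : ℝ → ℝ} {K0 : ℝ}

/-- one character -/
lemma Wgt.char (h : Wgt D Z K0) (μ : ℝ) {κ : ℝ} (hκ : 0 < κ) :
    ∀ᶠ T : ℝ in atTop, ∀ T1 T2 : ℝ, T1 ≤ T2 → T2 - T1 ≤ T →
    ‖∫ t in T1..T2, cexp (I * μ * t) * ((D T t - Z T : ℝ) : ℂ)‖ ≤ κ * T := by
  by_cases hμ : μ = 0
  · subst hμ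
    filter_upwards [h.zero κ hκ, h.cont] with T h1 h2 T1 T2 h12 h12T
    have e : ∫ t in T1..T2, cexp (I * ((0 : ℝ) : ℂ) * t) * ((D T t - Z T : ℝ) : ℂ) =
        (((∫ t in T1..T2, D T t) - (T2 - T1) * Z T : ℝ) : ℂ) := by
      simp only [Complex.ofReal_zero, mul_zero, zero_mul, Complex.exp_zero, one_mul]
      rw [intervalIntegral.integral_ofReal, intervalIntegral.integral_sub (h2.intervalIntegrable _ _)
        intervalIntegrable_const, intervalIntegral.integral_const, smul_eq_mul]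
    rw [e, Complex.norm_real, Real.norm_eq_abs]
    exact h1 T1 T2 h12 h12T
  · have hK0 : 0 ≤ K0 := by
      obtain ⟨T, hT⟩ := h.Zb.exists
      exact hT.1.trans hT.2
    filter_upwards [h.ne μ hμ (κ / 2) (by positivity), h.cont, h.Zb,
      eventually_ge_atTop (2 / |μ| * K0 / (κ / 2))] with T h1 h2 h3 h4 T1 T2 h12 h12T
    rw [div_le_iff₀ (by positivity)] at h4
    have hc1 : Continuous fun t : ℝ => cexp (I * μ * t) * ((D T t : ℝ) : ℂ) := by fun_prop
    have hc3 : Continuous fun t : ℝ => cexp (I * μ * t) * (Z T : ℂ) := by fun_prop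
    have e : ∫ t in T1..T2, cexp (I * μ * t) * ((D T t - Z T : ℝ) : ℂ) =
        (∫ t in T1..T2, cexp (I * μ * t) * ((D T t : ℝ) : ℂ)) -
          (∫ t in T1..T2, cexp (I * μ * t)) * (Z T : ℂ) := by
      rw [← intervalIntegral.integral_mul_const, ← intervalIntegral.integral_sub
        (hc1.intervalIntegrable _ _) (hc3.intervalIntegrable _ _)]
      refine intervalIntegral.integral_congr fun t _ => ?_
      push_cast
      ring
    rw [e]
    refine (norm_sub_le _ _).trans ?_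
    rw [norm_mul, Complex.norm_real, Real.norm_of_nonneg h3.1]
    have h5 : ‖∫ t in T1..T2, cexp (I * μ * t)‖ * Z T ≤ 2 / |μ| * K0 :=
      mul_le_mul (exp_int hμ T1 T2) h3.2 h3.1 (by positivity)
    have h6 := h1 T1 T2 h12 h12T
    linarith

/-- trigonometric polynomials -/
lemma Wgt.trig (h : Wgt D Z K0) (S : Finset ℝ) (c : ℝ → ℂ) {κ : ℝ} (hκ : 0 < κ) :
    ∀ᶠ T : ℝ in atTop, ∀ T1 T2 : ℝ, T1 ≤ T2 → T2 - T1 ≤ T →
    |∫ t in T1..T2, tp S c t * (D T t - Z T)| ≤ κ * T := by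
  set A : ℝ := ∑ τ ∈ S, ‖c τ‖ with hA
  have hA0 : 0 ≤ A := Finset.sum_nonneg fun _ _ => norm_nonneg _
  have hev : ∀ᶠ T : ℝ in atTop, ∀ τ ∈ S, ∀ T1 T2 : ℝ, T1 ≤ T2 → T2 - T1 ≤ T →
      ‖∫ t in T1..T2, cexp (I * τ * t) * ((D T t - Z T : ℝ) : ℂ)‖ ≤ κ / (A + 1) * T := by
    rw [Filter.eventually_all_finset]
    intro τ _
    exact h.char τ (by positivity)
  filter_upwards [hev, h.cont, eventually_ge_atTop 0] with T h1 h2 h3 T1 T2 h12 h12T
  have e1 : ∫ t in T1..T2, tp S c t * (D T t - Z T) =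
      (∑ τ ∈ S, c τ * ∫ t in T1..T2, cexp (I * τ * t) * ((D T t - Z T : ℝ) : ℂ)).re := by
    have e2 : ∫ t in T1..T2, (∑ τ ∈ S, c τ * (cexp (I * τ * t) * ((D T t - Z T : ℝ) : ℂ))) =
        ∑ τ ∈ S, c τ * ∫ t in T1..T2, cexp (I * τ * t) * ((D T t - Z T : ℝ) : ℂ) := by
      rw [intervalIntegral.integral_finsetSum]
      · refine Finset.sum_congr rfl fun τ _ => ?_
        rw [intervalIntegral.integral_const_mul]
      · intro τ _
        exact (by fun_prop : Continuous fun t : ℝ => c τ * (cexp (I * τ * t) *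
          ((D T t - Z T : ℝ) : ℂ))).intervalIntegrable _ _
    rw [← e2]
    have hc : Continuous fun t : ℝ => ∑ τ ∈ S, c τ * (cexp (I * τ * t) *
      ((D T t - Z T : ℝ) : ℂ)) := by fun_prop
    refine Eq.trans ?_ (intervalIntegral.intervalIntegral_re (hc.intervalIntegrable _ _))
    refine intervalIntegral.integral_congr fun t _ => ?_
    show tp S c t * (D T t - Z T) = (∑ τ ∈ S, c τ * (cexp (I * τ * t) * ((D T t - Z T : ℝ) : ℂ))).re
    unfold tp
    rw [← Complex.re_mul_ofReal, Finset.sum_mul]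
    congr 1
    refine Finset.sum_congr rfl fun τ _ => ?_
    ring
  rw [e1]
  refine (Complex.abs_re_le_norm _).trans ((norm_sum_le _ _).trans ?_)
  calc ∑ τ ∈ S, ‖c τ * ∫ t in T1..T2, cexp (I * τ * t) * ((D T t - Z T : ℝ) : ℂ)‖ ≤
      ∑ τ ∈ S, ‖c τ‖ * (κ / (A + 1) * T) := by
        refine Finset.sum_le_sum fun τ hτ => ?_
        rw [norm_mul]
        exact mul_le_mul_of_nonneg_left (h1 τ hτ T1 T2 h12 h12T) (norm_nonneg _)
    _ = A / (A + 1) * (κ * T) := by rw [← Finset.sum_mul, ← hA]; field_simp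
    _ ≤ 1 * (κ * T) := by
        have : A / (A + 1) ≤ 1 := by rw [div_le_one (by linarith)]; linarith
        gcongr
    _ = κ * T := one_mul _

/-- almost periodic functions -/
theorem Wgt.ap (h : Wgt D Z K0) {ψ : ℝ → ℝ} (hψ : AP ψ) {κ : ℝ} (hκ : 0 < κ) :
    ∀ᶠ T : ℝ in atTop, ∀ T1 T2 : ℝ, T1 ≤ T2 → T2 - T1 ≤ T →
    |(∫ t in T1..T2, ψ t * D T t) - Z T * ∫ t in T1..T2, ψ t| ≤ κ * T := by
  have hK0 : 0 ≤ K0 := by
    obtain ⟨T, hT⟩ := h.Zb.exists
    exact hT.1.trans hT.2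
  set e : ℝ := κ / (2 * (2 * K0 + 1)) with he
  have he0 : 0 < e := by positivity
  obtain ⟨S, c, hS⟩ := hψ e he0
  have hψc := hψ.cont
  filter_upwards [h.trig S c (κ := κ / 2) (by positivity), h.zero 1 one_pos, h.cont, h.nonneg, h.Zb,
    eventually_ge_atTop 0] with T h1 h2 h3 h4 h5 h6 T1 T2 h12 h12T
  have hd : Continuous fun t => D T t - Z T := by fun_prop
  have e1 : (∫ t in T1..T2, ψ t * D T t) - Z T * ∫ t in T1..T2, ψ t =
      (∫ t in T1..T2, tp S c t * (D T t - Z T)) + ∫ t in T1..T2, (ψ t - tp S c t) * (D T t - Z T) := by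
    have ht := tp_cont S c
    rw [← intervalIntegral.integral_add, ← intervalIntegral.integral_const_mul,
      ← intervalIntegral.integral_sub]
    · refine intervalIntegral.integral_congr fun t _ => ?_
      ring
    · exact (hψc.mul h3).intervalIntegrable _ _
    · exact (continuous_const.mul hψc).intervalIntegrable _ _
    · exact (ht.mul hd).intervalIntegrable _ _
    · exact ((hψc.sub ht).mul hd).intervalIntegrable _ _
  rw [e1]
  refine (abs_add_le _ _).trans ?_
  have h7 : |∫ t in T1..T2, (ψ t - tp S c t) * (D T t - Z T)| ≤ ∫ t in T1..T2, e * (D T t + Z T) := by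
    rw [← Real.norm_eq_abs]
    refine intervalIntegral.norm_integral_le_of_norm_le h12 (Eventually.of_forall fun t _ => ?_) ?_
    · rw [Real.norm_eq_abs, abs_mul]
      refine mul_le_mul (hS t) ?_ (abs_nonneg _) he0.le
      rw [abs_le]
      have a1 := h4 t
      have a2 := h5.1
      constructor <;> linarith
    · exact (continuous_const.mul (h3.add continuous_const)).intervalIntegrable _ _
  have h8 : ∫ t in T1..T2, e * (D T t + Z T) = e * ((∫ t in T1..T2, D T t) + (T2 - T1) * Z T) := by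
    rw [intervalIntegral.integral_const_mul, intervalIntegral.integral_add (h3.intervalIntegrable _ _)
      intervalIntegrable_const, intervalIntegral.integral_const, smul_eq_mul]
  have h9 := (abs_le.1 (h2 T1 T2 h12 h12T)).2
  have h10 : (T2 - T1) * Z T ≤ T * K0 := mul_le_mul h12T h5.2 h5.1 h6
  have h11 : e * ((∫ t in T1..T2, D T t) + (T2 - T1) * Z T) ≤ e * ((2 * K0 + 1) * T) := by
    apply mul_le_mul_of_nonneg_left _ he0.le
    linarith
  have h12' : e * ((2 * K0 + 1) * T) = κ / 2 * T := by rw [he]; field_simp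
  have h13 := h1 T1 T2 h12 h12T
  linarith

/-! ### level sets -/

/-- the ramp from `0` at `a` to `1` at `b` -/
noncomputable def ramp (a b x : ℝ) : ℝ := max 0 (min 1 ((x - a) / (b - a)))

lemma ramp_cont {a b : ℝ} : Continuous (ramp a b) := by
  unfold ramp
  fun_prop

lemma ramp_nonneg (a b x : ℝ) : 0 ≤ ramp a b x := le_max_left _ _

lemma ramp_le_one (a b x : ℝ) : ramp a b x ≤ 1 := max_le zero_le_one (min_le_left _ _)

lemma ramp_zero {a b x : ℝ} (h : a < b) (hx : x ≤ a) : ramp a b x = 0 := by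
  unfold ramp
  apply max_eq_left
  refine (min_le_right _ _).trans ?_
  exact div_nonpos_of_nonpos_of_nonneg (by linarith) (by linarith)

lemma ramp_one {a b x : ℝ} (h : a < b) (hx : b ≤ x) : ramp a b x = 1 := by
  unfold ramp
  have h1 : 1 ≤ (x - a) / (b - a) := by
    rw [le_div_iff₀ (by linarith)]; linarith
  rw [min_eq_left h1]
  norm_num

/-- the level set -/
def Lv (φ : ℝ → ℝ) (r T1 T2 : ℝ) : Set ℝ := {t | t ∈ Set.Icc T1 T2 ∧ r < φ t}

lemma Lv_meas {φ : ℝ → ℝ} (h : Continuous φ) (r T1 T2 : ℝ) : MeasurableSet (Lv φ r T1 T2) :=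
  measurableSet_Icc.inter (measurableSet_lt measurable_const h.measurable)

lemma Lv_sub (φ : ℝ → ℝ) (r T1 T2 : ℝ) : Lv φ r T1 T2 ⊆ Set.Icc T1 T2 := fun _ h => h.1

/-- pigeonhole -/
lemma pigeon (m : ℕ) (I : ℕ → ℝ) (T : ℝ) (h0 : I 0 ≤ T) (hm : 0 ≤ I (m + 1)) :
    ∃ j, j ≤ m ∧ I j - I (j + 1) ≤ T / (m + 1) := by
  by_contra hcon
  push Not at hcon
  have h1 : ∑ j ∈ Finset.range (m + 1), T / (m + 1) < ∑ j ∈ Finset.range (m + 1), (I j - I (j + 1)) := by
    apply Finset.sum_lt_sum_of_nonempty ⟨0, by simp⟩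
    intro j hj
    rw [Finset.mem_range] at hj
    exact hcon j (by omega)
  rw [Finset.sum_range_sub', Finset.sum_const, Finset.card_range, nsmul_eq_mul] at h1
  push_cast at h1
  have h2 : ((m : ℝ) + 1) * (T / (m + 1)) = T := by field_simp
  rw [h2] at h1
  linarith

/-- **level sets** -/
theorem Wgt.level (h : Wgt D Z K0) {φ : ℝ → ℝ} (hφ : AP φ) {r1 r2 : ℝ} (hr : r1 < r2) :
    ∀ᶠ T : ℝ in atTop, ∀ T1 T2 : ℝ, T1 ≤ T2 → T2 - T1 ≤ T → ∃ r : ℝ, r1 ≤ r ∧ r ≤ r2 ∧
    (∫ t in Lv φ r T1 T2, D T t) ≤ volume.real (Lv φ r T1 T2) * Z T + T := by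
  have hK0 : 0 ≤ K0 := by
    obtain ⟨T, hT⟩ := h.Zb.exists
    exact hT.1.trans hT.2
  obtain ⟨m, hm⟩ := exists_nat_ge (2 * K0)
  set q : ℕ → ℝ := fun j => r1 + (r2 - r1) * (j / (m + 2)) with hq
  have hq1 : ∀ j, q j < q (j + 1) := by
    intro j
    rw [hq]
    simp only
    have : (j : ℝ) / (m + 2) < ((j + 1 : ℕ) : ℝ) / (m + 2) := by
      push_cast
      gcongr
      linarith
    have h2 : 0 < r2 - r1 := by linarith
    nlinarith
  have hqr : ∀ j, j ≤ m + 2 → r1 ≤ q j ∧ q j ≤ r2 := by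
    intro j hj
    rw [hq]
    simp only
    have h1 : (j : ℝ) / (m + 2) ≤ 1 := by
      rw [div_le_one (by positivity)]
      exact_mod_cast hj
    have h2 : 0 ≤ (j : ℝ) / (m + 2) := by positivity
    have h3 : 0 < r2 - r1 := by linarith
    constructor <;> nlinarith
  set ψ : ℕ → ℝ → ℝ := fun j t => ramp (q j) (q (j + 1)) (φ t) with hψ
  have hψAP : ∀ j, AP (ψ j) := fun j => hφ.comp ramp_cont
  have hev : ∀ᶠ T : ℝ in atTop, ∀ j ∈ Finset.range (m + 1), ∀ T1 T2 : ℝ, T1 ≤ T2 → T2 - T1 ≤ T →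
      |(∫ t in T1..T2, ψ j t * D T t) - Z T * ∫ t in T1..T2, ψ j t| ≤ 1 / 2 * T := by
    rw [Filter.eventually_all_finset]
    intro j _
    exact h.ap (hψAP j) (by norm_num)
  filter_upwards [hev, h.cont, h.nonneg, h.Zb, eventually_ge_atTop 0] with T h1 h2 h3 h4 h5 T1 T2 h12 h12T
  set J : ℕ → ℝ := fun j => ∫ t in T1..T2, ψ j t with hJ
  have hψc : ∀ j, Continuous (ψ j) := fun j => (hψAP j).cont
  obtain ⟨j, hj, hjJ⟩ := pigeon m J T (by
      have : J 0 ≤ ∫ t in T1..T2, (1 : ℝ) := by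
        refine intervalIntegral.integral_mono_on h12 ((hψc 0).intervalIntegrable _ _)
          intervalIntegrable_const fun t _ => ramp_le_one _ _ _
      simp only [intervalIntegral.integral_const, smul_eq_mul, mul_one] at this
      linarith)
    (intervalIntegral.integral_nonneg h12 fun t _ => ramp_nonneg _ _ _)
  refine ⟨q (j + 1), (hqr (j + 1) (by omega)).1, (hqr (j + 1) (by omega)).2, ?_⟩
  set V := Lv φ (q (j + 1)) T1 T2 with hV
  have hVm : MeasurableSet V := Lv_meas hφ.cont _ _ _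
  have hVs : V ⊆ Set.Icc T1 T2 := Lv_sub _ _ _ _
  -- upper bound
  have hup : (∫ t in V, D T t) ≤ ∫ t in T1..T2, ψ j t * D T t := by
    rw [intervalIntegral.integral_of_le h12, ← integral_Icc_eq_integral_Ioc]
    have hi : IntegrableOn (fun t => ψ j t * D T t) (Set.Icc T1 T2) :=
      ((hψc j).mul h2).continuousOn.integrableOn_compact isCompact_Icc
    calc (∫ t in V, D T t) = ∫ t in V, ψ j t * D T t := by
          refine setIntegral_congr_fun hVm fun t ht => ?_
          have : ψ j t = 1 := ramp_one (hq1 j) (le_of_lt ht.2)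
          show D T t = ψ j t * D T t
          rw [this, one_mul]
      _ ≤ ∫ t in Set.Icc T1 T2, ψ j t * D T t := by
          refine setIntegral_mono_set hi (Eventually.of_forall fun t => ?_)
            (Eventually.of_forall fun t ht => hVs ht)
          exact mul_nonneg (ramp_nonneg _ _ _) (h3 t)
  -- lower bound
  have hlo : J (j + 1) ≤ volume.real V := by
    have e1 : J (j + 1) = ∫ t in Set.Icc T1 T2, ψ (j + 1) t := by
      rw [hJ]
      simp only
      rw [intervalIntegral.integral_of_le h12, ← integral_Icc_eq_integral_Ioc]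
    have e2 : volume.real V = ∫ t in Set.Icc T1 T2, V.indicator (fun _ => (1 : ℝ)) t := by
      rw [setIntegral_indicator hVm, Set.inter_eq_right.2 hVs]
      simp
    rw [e1, e2]
    refine setIntegral_mono_on ((hψc _).continuousOn.integrableOn_compact isCompact_Icc) ?_
      measurableSet_Icc fun t ht => ?_
    · exact ((integrableOn_const (by simp)).indicator hVm)
    · by_cases htV : t ∈ V
      · rw [Set.indicator_of_mem htV]
        exact ramp_le_one _ _ _
      · rw [Set.indicator_of_notMem htV]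
        have : φ t ≤ q (j + 1) := by
          by_contra hcon
          push Not at hcon
          exact htV ⟨ht, hcon⟩
        exact (ramp_zero (hq1 (j + 1)) this).le
  have h6 := (abs_le.1 (h1 j (Finset.mem_range.2 (by omega)) T1 T2 h12 h12T)).2
  have h7 : Z T * J j ≤ Z T * (J (j + 1) + T / (m + 1)) :=
    mul_le_mul_of_nonneg_left (by linarith) h4.1
  have h8 : Z T * J (j + 1) ≤ Z T * volume.real V := mul_le_mul_of_nonneg_left hlo h4.1
  have h9 : Z T * (T / (m + 1)) ≤ 1 / 2 * T := by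
    have h10 : Z T * (T / (m + 1)) ≤ K0 * (T / (m + 1)) :=
      mul_le_mul_of_nonneg_right h4.2 (by positivity)
    refine h10.trans ?_
    rw [mul_div_assoc', div_le_iff₀ (by positivity)]
    nlinarith
  have h10 : J j = ∫ t in T1..T2, ψ j t := rfl
  nlinarith

end Pool.Agent.U441.BS
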